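import Mathlib

namespace Pool.Agent.Results.MP_2cc943_co.NoForcingPrototile

open Filter Topology Metric Set

/-- The Euclidean plane. -/
abbrev Plane := EuclideanSpace ℝ (Fin 2)

/-- Closed topological disk. -/
def IsDisk (A : Set Plane) : Prop :=
  Nonempty (A ≃ₜ Metric.closedBall (0 : Plane) 1)

/-- A tiling: a countable family of closed topological disks that cover the plane and have
pairwise disjoint interiors. -/
structure IsTiling (T : Set (Set Plane)) : Prop where
  countable : T.Countable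
  disk : ∀ A ∈ T, IsDisk A
  cover : ⋃₀ T = Set.univ
  disjoint : ∀ A ∈ T, ∀ B ∈ T, A ≠ B → Disjoint (interior A) (interior B)

/-- `P` admits `T`: `T` is a tiling each of whose tiles is congruent to `P`. -/
def Admits (P : Set Plane) (T : Set (Set Plane)) : Prop :=
  IsTiling T ∧ ∀ A ∈ T, ∃ g : Plane ≃ᵢ Plane, A = g '' P

/-- A similarity: an isometry followed by a scaling `x ↦ c x` with `c > 0`. -/
def IsSimilarity (f : Plane → Plane) : Prop :=
  ∃ (g : Plane ≃ᵢ Plane) (c : ℝ), 0 < c ∧ ∀ x, f x = c • g x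

/-- Equality of tilings: some similarity maps the first onto the second. -/
def Equal (T₁ T₂ : Set (Set Plane)) : Prop :=
  ∃ f : Plane → Plane, IsSimilarity f ∧ (fun A : Set Plane => f '' A) '' T₁ = T₂

/-- `T₁` is a `k`-composition of `T₂`: every tile of the tiling `T₁` is a union of exactly `k`
tiles of `T₂`. -/
def IsComposition (k : ℕ) (T₁ T₂ : Set (Set Plane)) : Prop :=
  IsTiling T₁ ∧ ∀ A ∈ T₁, ∃ S : Finset (Set Plane),
    (S : Set (Set Plane)) ⊆ T₂ ∧ S.card = k ∧ A = ⋃₀ (S : Set (Set Plane))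

/-- `T` is a `k`-similarity tiling. -/
def IsKSimilarity (k : ℕ) (T : Set (Set Plane)) : Prop :=
  2 ≤ k ∧ (∃ T₁, IsComposition k T₁ T ∧ Equal T T₁) ∧
    ∀ j : ℕ, 1 < j → j < k → ¬ ∃ T₁, IsComposition j T₁ T ∧ Equal T T₁

/-! ### Abstract recurrence lemma -/

section Abstract

variable {X : Type*} [TopologicalSpace X] [CompactSpace X] [Nonempty X]

theorem exists_minimal (T : Plane → X → X) :
    ∃ M : Set X, IsClosed M ∧ M.Nonempty ∧ (∀ a, ∀ x ∈ M, T a x ∈ M) ∧
      ∀ M' : Set X, IsClosed M' → M'.Nonempty → (∀ a, ∀ x ∈ M', T a x ∈ M') → M' ⊆ M → M' = M := by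
  obtain ⟨M, hM⟩ := zorn_superset_nonempty
    {M : Set X | IsClosed M ∧ M.Nonempty ∧ (∀ a, ∀ x ∈ M, T a x ∈ M)} (by
      intro c hc hchain hne
      refine ⟨⋂₀ c, ⟨isClosed_sInter fun s hs => (hc hs).1, ?_, ?_⟩, fun s hs => sInter_subset_of_mem hs⟩
      · have : Nonempty c := hne.to_subtype
        have h := IsCompact.nonempty_iInter_of_directed_nonempty_isCompact_isClosed
          (fun s : c => (s : Set X)) ?_ ?_ ?_ ?_
        · rwa [sInter_eq_iInter]
        · intro s t
          rcases hchain.total s.2 t.2 with h | h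
          · exact ⟨s, subset_rfl, h⟩
          · exact ⟨t, h, subset_rfl⟩
        · exact fun s => (hc s.2).2.1
        · exact fun s => (hc s.2).1.isCompact
        · exact fun s => (hc s.2).1
      · intro a x hx s hs
        exact (hc hs).2.2 a x (hx s hs)) univ
      ⟨isClosed_univ, univ_nonempty, fun _ _ _ => mem_univ _⟩
  refine ⟨M, hM.2.prop.1, hM.2.prop.2.1, hM.2.prop.2.2, ?_⟩
  intro M' h1 h2 h3 h4
  exact subset_antisymm h4 (hM.2.le_of_le ⟨h1, h2, h3⟩ h4)

theorem recurrence [R1Space X] (T : Plane → X → X) (h0 : ∀ x, T 0 x = x)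
    (hadd : ∀ a b x, T (a + b) x = T a (T b x)) (hcont : ∀ a, Continuous (T a))
    (Y : ℕ → ℕ → Set X) (hclosed : ∀ k n, IsClosed (Y k n)) (hcover : ∀ x, ∃ k n, x ∈ Y k n) :
    ∃ k n x, (∀ j < k, ∀ m, x ∉ Y j m) ∧ ∀ R : ℝ, ∃ a : Plane, R < ‖a‖ ∧ T a x ∈ Y k n := by
  obtain ⟨M, hMc, hMne, hMinv, hMmin⟩ := exists_minimal T
  have hMcpt : CompactSpace M := isCompact_iff_compactSpace.mp hMc.isCompact
  have hMne' : Nonempty M := hMne.to_subtype
  -- some Y k n has interior in M
  have hex : ∃ k n, (interior {x : M | (x : X) ∈ Y k n}).Nonempty := by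
    have h := nonempty_interior_of_iUnion_of_closed (X := M)
      (f := fun p : ℕ × ℕ => {x : M | (x : X) ∈ Y p.1 p.2})
      (fun p => (hclosed p.1 p.2).preimage continuous_subtype_val)
      (by
        ext x
        simp only [mem_iUnion, mem_ofPred_eq, mem_univ, iff_true]
        obtain ⟨k, n, h⟩ := hcover x
        exact ⟨(k, n), h⟩)
    obtain ⟨p, hp⟩ := h
    exact ⟨p.1, p.2, hp⟩
  classical
  let k := Nat.find hex
  obtain ⟨n, hn⟩ := Nat.find_spec hex
  have hlt : ∀ j < k, ∀ m, interior {x : M | (x : X) ∈ Y j m} = ∅ := by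
    intro j hj m
    have := Nat.find_min hex hj
    push Not at this
    exact this m
  -- a point of M outside all Y j m, j < k
  have hdense : Dense (⋂ p : {j // j < k} × ℕ, {x : M | (x : X) ∈ Y p.1 p.2}ᶜ) := by
    apply dense_iInter_of_isOpen
    · intro p
      exact ((hclosed p.1 p.2).preimage continuous_subtype_val).isOpen_compl
    · intro p
      rw [← interior_eq_empty_iff_dense_compl]
      exact hlt p.1 p.1.2 p.2
  obtain ⟨x, hx⟩ := hdense.nonempty
  refine ⟨k, n, x, ?_, ?_⟩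
  · intro j hj m hxm
    have := mem_iInter.mp hx (⟨j, hj⟩, m)
    exact this hxm
  · intro R
    -- limit points of the orbit at infinity
    let F : ℕ → Set X := fun r => closure {y | ∃ a : Plane, (r : ℝ) ≤ ‖a‖ ∧ y = T a x}
    have hFne : ∀ r, (F r).Nonempty := by
      intro r
      obtain ⟨a, ha⟩ := NormedSpace.exists_lt_norm ℝ Plane (r : ℝ)
      exact ⟨T a x, subset_closure ⟨a, ha.le, rfl⟩⟩
    have hFM : ∀ r, F r ⊆ M := by
      intro r
      apply closure_minimal _ hMc
      rintro y ⟨a, _, rfl⟩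
      exact hMinv a x x.2
    have hFinter : (⋂ r, F r).Nonempty := by
      apply IsCompact.nonempty_iInter_of_sequence_nonempty_isCompact_isClosed
      · intro r
        apply closure_mono
        rintro y ⟨a, ha, rfl⟩
        refine ⟨a, ?_, rfl⟩
        push_cast at ha
        linarith
      · exact hFne
      · exact isClosed_closure.isCompact
      · exact fun r => isClosed_closure
    obtain ⟨y, hy⟩ := hFinter
    have hyM : y ∈ M := hFM 0 (mem_iInter.mp hy 0)
    obtain ⟨U, hU, hUeq⟩ := isOpen_induced_iff.mp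
      (isOpen_interior : IsOpen (interior {x : M | (x : X) ∈ Y k n}))
    have hUY : ∀ z ∈ M, z ∈ U → z ∈ Y k n := by
      intro z hz hzU
      have : (⟨z, hz⟩ : M) ∈ interior {x : M | (x : X) ∈ Y k n} := by
        rw [← hUeq]; exact hzU
      exact interior_subset (s := {x : M | (x : X) ∈ Y k n}) this
    -- the orbit of y meets U
    have horb : ∃ b, T b y ∈ U := by
      by_contra hcon
      push Not at hcon
      have hM' : closure {z | ∃ b, z = T b y} = M := by
        apply hMmin _ isClosed_closure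
        · exact ⟨y, subset_closure ⟨0, (h0 y).symm⟩⟩
        · intro a z hz
          have : T a '' closure {z | ∃ b, z = T b y} ⊆ closure (T a '' {z | ∃ b, z = T b y}) :=
            image_closure_subset_closure_image (hcont a)
          refine closure_mono ?_ (this ⟨z, hz, rfl⟩)
          rintro _ ⟨_, ⟨b, rfl⟩, rfl⟩
          exact ⟨a + b, (hadd a b y).symm⟩
        · apply closure_minimal _ hMc
          rintro z ⟨b, rfl⟩
          exact hMinv b y hyM
      have hsub : M ⊆ Uᶜ := by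
        rw [← hM']
        apply closure_minimal _ hU.isClosed_compl
        rintro z ⟨b, rfl⟩
        exact hcon b
      obtain ⟨z, hz⟩ := hn
      have hz' : (z : X) ∈ U := by
        rw [← hUeq] at hz; exact hz
      exact hsub z.2 hz'
    obtain ⟨b, hb⟩ := horb
    have hopen : IsOpen (T b ⁻¹' U) := hU.preimage (hcont b)
    obtain ⟨r, hr⟩ := exists_nat_gt (R + ‖b‖)
    obtain ⟨z, hz1, a, ha, rfl⟩ := mem_closure_iff.mp (mem_iInter.mp hy r) _ hopen hb
    refine ⟨b + a, ?_, ?_⟩
    · have : ‖a‖ ≤ ‖b + a‖ + ‖b‖ := by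
        calc ‖a‖ = ‖(b + a) - b‖ := by congr 1; abel
          _ ≤ _ := norm_sub_le _ _
      linarith
    · rw [hadd]
      exact hUY _ (hMinv b _ (hMinv a x x.2)) hz1

end Abstract

/-! ### Placements -/

/-- A placement: `(a, L)` stands for `x ↦ a + L x`. -/
abbrev G := Plane × (Plane →L[ℝ] Plane)

/-- The map of a placement. -/
def act (z : G) (x : Plane) : Plane := z.1 + z.2 x

/-- The linear part is isometric. -/
def Iso (z : G) : Prop := ∀ x, ‖z.2 x‖ = ‖x‖

/-- The tile of a placement. -/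
def tile (P : Set Plane) (z : G) : Set Plane := act z '' P

theorem act_dist {z : G} (hz : Iso z) (x y : Plane) : dist (act z x) (act z y) = dist x y := by
  unfold act
  rw [dist_add_left, dist_eq_norm, ← map_sub, hz, dist_eq_norm]

theorem exists_equiv {z : G} (hz : Iso z) : ∃ g : Plane ≃ᵢ Plane, ∀ x, g x = act z x := by
  let L : Plane →ₗᵢ[ℝ] Plane := ⟨z.2.toLinearMap, hz⟩
  let L' : Plane ≃ₗᵢ[ℝ] Plane := L.toLinearIsometryEquiv rfl
  refine ⟨L'.toIsometryEquiv.trans (IsometryEquiv.addLeft z.1), ?_⟩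
  intro x
  rfl

theorem exists_placement (g : Plane ≃ᵢ Plane) : ∃ z : G, Iso z ∧ ∀ x, g x = act z x := by
  let h := g.toRealAffineIsometryEquiv
  refine ⟨(g 0, h.linearIsometryEquiv.toContinuousLinearEquiv.toContinuousLinearMap), ?_, ?_⟩
  · intro x
    exact h.linearIsometryEquiv.norm_map x
  · intro x
    have := h.map_vadd 0 x
    simp only [vadd_eq_add, add_zero] at this
    unfold act
    rw [add_comm]
    exact this

theorem continuous_act : Continuous fun p : G × Plane => act p.1 p.2 := by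
  unfold act
  fun_prop

theorem tendsto_act {ι : Type*} {F : Filter ι} {z : ι → G} {x : ι → Plane} {z₀ : G} {x₀ : Plane}
    (hz : Tendsto z F (𝓝 z₀)) (hx : Tendsto x F (𝓝 x₀)) :
    Tendsto (fun i => act (z i) (x i)) F (𝓝 (act z₀ x₀)) :=
  (continuous_act.tendsto (z₀, x₀)).comp (hz.prodMk_nhds hx)

theorem iso_closed : IsClosed {z : G | Iso z} := by
  unfold Iso
  rw [Set.ofPred_forall]
  apply isClosed_iInter
  intro x
  exact isClosed_eq (by fun_prop) continuous_const

theorem interior_tile (P : Set Plane) {z : G} (hz : Iso z) :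
    interior (tile P z) = act z '' interior P := by
  obtain ⟨g, hg⟩ := exists_equiv hz
  have h : act z = g.toHomeomorph := by
    ext1 x; exact (hg x).symm
  unfold tile
  rw [h]
  exact (g.toHomeomorph.image_interior P).symm

theorem norm_le_of_mem {P : Set Plane} {D : ℝ} (hD : ∀ p ∈ P, ‖p‖ ≤ D) {z : G} (hz : Iso z)
    {x : Plane} (hx : x ∈ tile P z) : ‖z‖ ≤ ‖x‖ + D + 1 := by
  obtain ⟨p, hp, rfl⟩ := hx
  have hD0 : 0 ≤ D := (norm_nonneg p).trans (hD p hp)
  have h1 : ‖z.1‖ ≤ ‖act z p‖ + D := by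
    have : z.1 = act z p - z.2 p := by unfold act; abel
    calc ‖z.1‖ = ‖act z p - z.2 p‖ := by rw [← this]
      _ ≤ ‖act z p‖ + ‖z.2 p‖ := norm_sub_le _ _
      _ ≤ _ := by rw [hz]; gcongr; exact hD p hp
  have h2 : ‖z.2‖ ≤ 1 := by
    apply ContinuousLinearMap.opNorm_le_bound _ zero_le_one
    intro x
    rw [hz, one_mul]
  rw [Prod.norm_def]
  apply max_le
  · linarith
  · have := norm_nonneg (act z p)
    linarith

theorem exists_limit {ι : Type*} (F : Ultrafilter ι) (z : ι → G) (R : ℝ)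
    (h : ∀ᶠ i in F, ‖z i‖ ≤ R) : ∃ z₀, Tendsto z F (𝓝 z₀) := by
  have hc : IsCompact (closedBall (0 : G) R) := isCompact_closedBall 0 R
  obtain ⟨z₀, _, h₀⟩ := hc.ultrafilter_le_nhds (F.map z) (by
    rw [le_principal_iff]
    simp only [Ultrafilter.mem_coe, Ultrafilter.mem_map]
    filter_upwards [h] with i hi
    simpa using hi)
  exact ⟨z₀, h₀⟩

theorem exists_limit' {ι : Type*} (F : Ultrafilter ι) {P : Set Plane} (hP : IsCompact P)
    (x : ι → Plane) (h : ∀ᶠ i in F, x i ∈ P) : ∃ x₀ ∈ P, Tendsto x F (𝓝 x₀) := by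
  obtain ⟨z₀, hz, h₀⟩ := hP.ultrafilter_le_nhds (F.map x) (by
    rw [le_principal_iff]
    exact h)
  exact ⟨z₀, hz, h₀⟩

/-- Closed sets of placements that represent tilings by `P`. -/
structure IsPl (P : Set Plane) (C : Set G) : Prop where
  closed : IsClosed C
  iso : ∀ z ∈ C, Iso z
  cover : ∀ x, ∃ z ∈ C, x ∈ tile P z
  disj : ∀ z ∈ C, ∀ w ∈ C, tile P z ≠ tile P w →
    Disjoint (interior (tile P z)) (interior (tile P w))

theorem IsPl.nonempty {P : Set Plane} {C : Set G} (h : IsPl P C) : C.Nonempty := by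
  obtain ⟨z, hz, _⟩ := h.cover 0
  exact ⟨z, hz⟩

/-- The space of closed placement sets. -/
def X (P : Set Plane) := {C : Set G // IsPl P C}

/-- The map to distance functions. -/
noncomputable def emb (P : Set Plane) (C : X P) : G → ℝ := fun z => infDist z C.1

noncomputable instance (P : Set Plane) : TopologicalSpace (X P) :=
  TopologicalSpace.induced (emb P) inferInstance

theorem isInducing_emb (P : Set Plane) : IsInducing (emb P) := ⟨rfl⟩

instance (P : Set Plane) : R1Space (X P) := (isInducing_emb P).r1Space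

theorem tendsto_X {P : Set Plane} {ι : Type*} {F : Filter ι} {C : ι → X P} {C₀ : X P} :
    Tendsto C F (𝓝 C₀) ↔ ∀ z, Tendsto (fun i => infDist z (C i).1) F (𝓝 (infDist z C₀.1)) := by
  rw [(isInducing_emb P).tendsto_nhds_iff, tendsto_pi_nhds]
  rfl

theorem le_nhds_X {P : Set Plane} {F : Filter (X P)} {C₀ : X P} :
    F ≤ 𝓝 C₀ ↔ ∀ z, Tendsto (fun C : X P => infDist z C.1) F (𝓝 (infDist z C₀.1)) :=
  tendsto_X (C := id)

/-- near points -/
theorem exists_near {P : Set Plane} (z : G) : ∃ w : X P → G, (∀ C, w C ∈ C.1) ∧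
    ∀ C, dist z (w C) = infDist z C.1 := by
  have h : ∀ C : X P, ∃ w ∈ C.1, infDist z C.1 = dist z w := fun C =>
    C.2.closed.exists_infDist_eq_dist C.2.nonempty z
  choose w hw1 hw2 using h
  exact ⟨w, hw1, fun C => (hw2 C).symm⟩

theorem tendsto_near {P : Set Plane} {z : G} {F : Filter (X P)} {w : X P → G}
    (hw : ∀ C, dist z (w C) = infDist z C.1)
    (h : Tendsto (fun C : X P => infDist z C.1) F (𝓝 0)) : Tendsto w F (𝓝 z) := by
  rw [tendsto_iff_dist_tendsto_zero]
  simpa only [dist_comm _ z, hw] using h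

/-- Points of the limit are the limits of points. -/
theorem mem_limit_iff {P : Set Plane} {F : Ultrafilter (X P)} {C₀ : X P}
    (h : (F : Filter (X P)) ≤ 𝓝 C₀) {w : X P → G} {z : G} (hw : ∀ᶠ C in F, w C ∈ C.1)
    (hz : Tendsto w F (𝓝 z)) : z ∈ C₀.1 := by
  have h1 := le_nhds_X.mp h z
  have h2 : Tendsto (fun C : X P => infDist z C.1) F (𝓝 0) := by
    apply squeeze_zero' (g := fun C => dist z (w C))
    · exact Eventually.of_forall fun C => infDist_nonneg
    · filter_upwards [hw] with C hC using infDist_le_dist_of_mem hC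
    · have := (tendsto_iff_dist_tendsto_zero.mp hz)
      simpa only [dist_comm _ z] using this
  have h3 : infDist z C₀.1 = 0 := tendsto_nhds_unique h1 h2
  exact (C₀.2.closed.mem_iff_infDist_zero C₀.2.nonempty).mpr h3

theorem exists_seq {P : Set Plane} {F : Ultrafilter (X P)} {C₀ : X P}
    (h : (F : Filter (X P)) ≤ 𝓝 C₀) {z : G} (hz : z ∈ C₀.1) :
    ∃ w : X P → G, (∀ C, w C ∈ C.1) ∧ Tendsto w F (𝓝 z) := by
  obtain ⟨w, hw1, hw2⟩ := exists_near (P := P) z
  refine ⟨w, hw1, tendsto_near hw2 ?_⟩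
  have := le_nhds_X.mp h z
  rwa [infDist_zero_of_mem hz] at this

/-- If two placements converge, and they have the same tile, so do the limits. -/
theorem tile_subset_of_tendsto {ι : Type*} {F : Ultrafilter ι} {P : Set Plane} (hP : IsCompact P)
    {z w : ι → G} {z₀ w₀ : G} (hz : Tendsto z F (𝓝 z₀)) (hw : Tendsto w F (𝓝 w₀))
    (h : ∀ᶠ i in F, tile P (z i) ⊆ tile P (w i)) : tile P z₀ ⊆ tile P w₀ := by
  rintro _ ⟨p, hp, rfl⟩
  have h1 : ∀ᶠ i in F, ∃ q ∈ P, act (w i) q = act (z i) p := by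
    filter_upwards [h] with i hi
    exact hi ⟨p, hp, rfl⟩
  have h2 : ∀ i, ∃ q : Plane, (∃ q ∈ P, act (w i) q = act (z i) p) →
      q ∈ P ∧ act (w i) q = act (z i) p := by
    intro i
    by_cases hi : ∃ q ∈ P, act (w i) q = act (z i) p
    · obtain ⟨q, hq⟩ := hi
      exact ⟨q, fun _ => hq⟩
    · exact ⟨0, fun h => absurd h hi⟩
  choose q hq using h2
  obtain ⟨q₀, hq₀, hlim⟩ := exists_limit' F hP q (by
    filter_upwards [h1] with i hi using (hq i hi).1)
  refine ⟨q₀, hq₀, ?_⟩
  have e1 := tendsto_act hw hlim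
  have e2 := tendsto_act hz (tendsto_const_nhds (x := p))
  refine tendsto_nhds_unique (e1.congr' ?_) e2
  filter_upwards [h1] with i hi using (hq i hi).2

theorem tile_eq_of_tendsto {ι : Type*} {F : Ultrafilter ι} {P : Set Plane} (hP : IsCompact P)
    {z w : ι → G} {z₀ w₀ : G} (hz : Tendsto z F (𝓝 z₀)) (hw : Tendsto w F (𝓝 w₀))
    (h : ∀ᶠ i in F, tile P (z i) = tile P (w i)) : tile P z₀ = tile P w₀ :=
  subset_antisymm
    (tile_subset_of_tendsto hP hz hw (h.mono fun _ hi => hi.subset))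
    (tile_subset_of_tendsto hP hw hz (h.mono fun _ hi => hi.symm.subset))

/-- An interior point of the limit tile is eventually interior. -/
theorem eventually_mem_interior {ι : Type*} {F : Filter ι} {P : Set Plane}
    {z : ι → G} {z₀ : G} (hz : Tendsto z F (𝓝 z₀)) (hiso : ∀ᶠ i in F, Iso (z i)) (h₀ : Iso z₀)
    {y : ι → Plane} {y₀ : Plane} (hy : Tendsto y F (𝓝 y₀)) (hy₀ : y₀ ∈ interior (tile P z₀)) :
    ∀ᶠ i in F, y i ∈ interior (tile P (z i)) := by
  rw [interior_tile P h₀] at hy₀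
  obtain ⟨p, hp, hpy⟩ := hy₀
  have h2 : ∀ i, ∃ q : Plane, Iso (z i) → act (z i) q = y i := by
    intro i
    by_cases hi : Iso (z i)
    · obtain ⟨g, hg⟩ := exists_equiv hi
      refine ⟨g.symm (y i), fun _ => ?_⟩
      rw [← hg]; simp
    · exact ⟨0, fun h => absurd h hi⟩
  choose q hq using h2
  have hlim : Tendsto q F (𝓝 p) := by
    rw [tendsto_iff_dist_tendsto_zero]
    have e1 : Tendsto (fun i => dist (y i) (act (z i) p)) F (𝓝 0) := by
      have := hy.dist (tendsto_act hz (tendsto_const_nhds (x := p)))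
      rwa [hpy, dist_self] at this
    refine e1.congr' ?_
    filter_upwards [hiso] with i hi
    rw [← hq i hi, act_dist hi]
  have hev : ∀ᶠ i in F, q i ∈ interior P := hlim (isOpen_interior.mem_nhds hp)
  filter_upwards [hiso, hev] with i hi1 hi2
  rw [interior_tile P hi1]
  exact ⟨q i, hi2, hq i hi1⟩

theorem compactSpace_X {P : Set Plane} (hP : IsCompact P) :
    CompactSpace (X P) := by
  obtain ⟨D, hD⟩ := hP.isBounded.exists_norm_le
  constructor
  rw [isCompact_iff_ultrafilter_le_nhds]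
  intro F _
  -- the limit set
  let C₀ : Set G := {z | Tendsto (fun C : X P => infDist z C.1) F (𝓝 0)}
  have hseq : ∀ z ∈ C₀, ∃ w : X P → G, (∀ C, w C ∈ C.1) ∧ Tendsto w F (𝓝 z) := by
    intro z hz
    obtain ⟨w, hw1, hw2⟩ := exists_near (P := P) z
    exact ⟨w, hw1, tendsto_near hw2 hz⟩
  have hmem : ∀ (w : X P → G) (z : G), (∀ C, w C ∈ C.1) → Tendsto w F (𝓝 z) → z ∈ C₀ := by
    intro w z hw hz
    apply squeeze_zero (g := fun C => dist z (w C))
    · exact fun C => infDist_nonneg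
    · exact fun C => infDist_le_dist_of_mem (hw C)
    · have := (tendsto_iff_dist_tendsto_zero.mp hz)
      simpa only [dist_comm _ z] using this
  have hC₀ : IsPl P C₀ := by
    refine ⟨?_, ?_, ?_, ?_⟩
    · -- closed
      rw [← closure_subset_iff_isClosed]
      intro z hz
      show Tendsto _ _ _
      rw [Metric.tendsto_nhds]
      intro ε hε
      obtain ⟨z', hz', hd⟩ := Metric.mem_closure_iff.mp hz (ε / 2) (half_pos hε)
      have h1 := (Metric.tendsto_nhds.mp (show Tendsto _ _ _ from hz')) (ε / 2) (half_pos hε)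
      filter_upwards [h1] with C hC
      rw [Real.dist_eq, sub_zero, abs_of_nonneg infDist_nonneg] at hC ⊢
      have := infDist_le_infDist_add_dist (s := C.1) (x := z) (y := z')
      linarith
    · intro z hz
      obtain ⟨w, hw1, hw2⟩ := hseq z hz
      exact iso_closed.mem_of_tendsto hw2 (Eventually.of_forall fun C => C.2.iso _ (hw1 C))
    · intro x
      have h1 : ∀ C : X P, ∃ z ∈ C.1, ∃ p ∈ P, act z p = x := fun C => C.2.cover x
      choose w hw p hp hwp using h1
      obtain ⟨z, hz⟩ := exists_limit F w (‖x‖ + D + 1) (Eventually.of_forall fun C =>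
        norm_le_of_mem hD (C.2.iso _ (hw C)) ⟨p C, hp C, hwp C⟩)
      obtain ⟨p₀, hp₀, hlim⟩ := exists_limit' F hP p (Eventually.of_forall hp)
      refine ⟨z, hmem w z hw hz, p₀, hp₀, ?_⟩
      refine tendsto_nhds_unique (tendsto_act hz hlim) ?_
      simp only [hwp]
      exact tendsto_const_nhds
    · intro z hz w hw hne'
      obtain ⟨z', hz1, hz2⟩ := hseq z hz
      obtain ⟨w', hw1, hw2⟩ := hseq w hw
      have hzi : Iso z :=
        iso_closed.mem_of_tendsto hz2 (Eventually.of_forall fun C => C.2.iso _ (hz1 C))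
      have hwi : Iso w :=
        iso_closed.mem_of_tendsto hw2 (Eventually.of_forall fun C => C.2.iso _ (hw1 C))
      rw [Set.disjoint_left]
      intro y hy1 hy2
      apply hne'
      apply tile_eq_of_tendsto hP hz2 hw2
      have e1 := eventually_mem_interior hz2 (Eventually.of_forall fun C => C.2.iso _ (hz1 C)) hzi
        (tendsto_const_nhds (x := y)) hy1
      have e2 := eventually_mem_interior hw2 (Eventually.of_forall fun C => C.2.iso _ (hw1 C)) hwi
        (tendsto_const_nhds (x := y)) hy2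
      filter_upwards [e1, e2] with C h1 h2
      by_contra hcon
      exact (Set.disjoint_left.mp (C.2.disj _ (hz1 C) _ (hw1 C) hcon)) h1 h2
  refine ⟨⟨C₀, hC₀⟩, mem_univ _, ?_⟩
  rw [le_nhds_X]
  intro z
  -- the distance converges
  obtain ⟨w, hw1, hw2⟩ := exists_near (P := P) z
  have hbd : ∀ C : X P, ‖w C‖ ≤ ‖z‖ + (‖z‖ + D + 1 + ‖z‖) := by
    intro C
    obtain ⟨v, hv, hv'⟩ := C.2.cover z.1
    have h1 := norm_le_of_mem hD (C.2.iso _ hv) hv'
    have h2 : ‖z.1‖ ≤ ‖z‖ := norm_fst_le z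
    have h3 : dist z (w C) ≤ dist z v := by
      rw [hw2]; exact infDist_le_dist_of_mem hv
    have h4 : dist z v ≤ ‖z‖ + ‖v‖ := by
      rw [dist_eq_norm]; exact norm_sub_le _ _
    have h5 : ‖w C‖ ≤ ‖z‖ + dist z (w C) := by
      rw [dist_eq_norm]
      calc ‖w C‖ = ‖z - (z - w C)‖ := by congr 1; abel
        _ ≤ _ := norm_sub_le _ _
    linarith
  obtain ⟨w₀, hw₀⟩ := exists_limit F w _ (Eventually.of_forall hbd)
  have hw₀mem : w₀ ∈ C₀ := hmem w w₀ hw1 hw₀
  have hlim : Tendsto (fun C : X P => infDist z C.1) F (𝓝 (dist z w₀)) := by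
    have := (tendsto_const_nhds (x := z)).dist hw₀
    simpa only [hw2] using this
  have heq : infDist z C₀ = dist z w₀ := by
    apply le_antisymm (infDist_le_dist_of_mem hw₀mem)
    obtain ⟨v, hv1, hv2⟩ := hC₀.closed.exists_infDist_eq_dist hC₀.nonempty z
    rw [hv2]
    obtain ⟨v', hv'1, hv'2⟩ := hseq v hv1
    refine le_of_tendsto_of_tendsto' hlim ((tendsto_const_nhds (x := z)).dist hv'2) ?_
    exact fun C => infDist_le_dist_of_mem (hv'1 C)
  show Tendsto _ _ (𝓝 (infDist z C₀))
  rw [heq]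
  exact hlim

/-! ### Translations -/

/-- translation of a placement set -/
def shift (a : Plane) (C : Set G) : Set G := (fun z : G => z + (a, 0)) '' C

theorem act_add (z : G) (a x : Plane) : act (z + (a, 0)) x = act z x + a := by
  simp only [act, Prod.fst_add, Prod.snd_add, add_zero]
  abel

theorem tile_add (P : Set Plane) (z : G) (a : Plane) :
    tile P (z + (a, 0)) = (fun x => x + a) '' tile P z := by
  unfold tile
  rw [image_image]
  simp only [act_add]

theorem isPl_shift {P : Set Plane} {C : Set G} (h : IsPl P C) (a : Plane) :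
    IsPl P (shift a C) := by
  have hinj : Function.Injective (fun x : Plane => x + a) := add_left_injective a
  refine ⟨?_, ?_, ?_, ?_⟩
  · exact (Homeomorph.addRight ((a, 0) : G)).isClosedMap _ h.closed
  · rintro _ ⟨z, hz, rfl⟩ x
    simpa using h.iso z hz x
  · intro x
    obtain ⟨z, hz, hx⟩ := h.cover (x - a)
    refine ⟨z + (a, 0), ⟨z, hz, rfl⟩, ?_⟩
    rw [tile_add]
    exact ⟨x - a, hx, by simp⟩
  · rintro _ ⟨z, hz, rfl⟩ _ ⟨w, hw, rfl⟩ hne
    simp only [tile_add] at hne ⊢
    have h1 := h.disj z hz w hw (fun h => hne (by rw [h]))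
    have e : ∀ A : Set Plane, interior ((fun x => x + a) '' A) = (fun x => x + a) '' interior A :=
      fun A => ((Homeomorph.addRight a).image_interior A).symm
    rw [e, e]
    exact (disjoint_image_iff hinj).mpr h1

/-- The action of the plane by translations. -/
def trans {P : Set Plane} (a : Plane) (C : X P) : X P := ⟨shift a C.1, isPl_shift C.2 a⟩

theorem trans_zero {P : Set Plane} (C : X P) : trans 0 C = C := by
  apply Subtype.ext
  show shift 0 C.1 = C.1
  unfold shift
  have : (fun z : G => z + ((0 : Plane), (0 : Plane →L[ℝ] Plane))) = id := by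
    ext1 z
    show z + (0 : G) = z
    simp
  rw [this, image_id]

theorem trans_add {P : Set Plane} (a b : Plane) (C : X P) :
    trans (a + b) C = trans a (trans b C) := by
  apply Subtype.ext
  show shift (a + b) C.1 = shift a (shift b C.1)
  unfold shift
  rw [image_image]
  congr 1
  ext1 z
  rw [add_assoc]
  congr 1
  ext1
  · show a + b = b + a
    rw [add_comm]
  · show (0 : Plane →L[ℝ] Plane) = 0 + 0
    simp

theorem continuous_trans {P : Set Plane} (a : Plane) : Continuous (trans a : X P → X P) := by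
  rw [(isInducing_emb P).continuous_iff]
  apply continuous_pi
  intro z
  have h : (fun C : X P => (emb P ∘ trans a) C z) = fun C => emb P C (z - (a, 0)) := by
    ext1 C
    show infDist z (shift a C.1) = infDist (z - (a, 0)) C.1
    unfold shift
    have e := infDist_image (IsometryEquiv.addRight ((a, 0) : G)).isometry (x := z - (a, 0))
      (t := C.1)
    rw [← e]
    congr 1
    simp
  rw [h]
  exact (continuous_apply _).comp (isInducing_emb P).continuous

/-! ### Expansions -/

/-- The expansion `x ↦ b + c M x`. -/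
def expand (d : G × ℝ) (x : Plane) : Plane := d.1.1 + d.2 • d.1.2 x

theorem continuous_expand : Continuous fun p : (G × ℝ) × Plane => expand p.1 p.2 := by
  unfold expand
  fun_prop

theorem tendsto_expand {ι : Type*} {F : Filter ι} {d : ι → G × ℝ} {x : ι → Plane} {d₀ : G × ℝ}
    {x₀ : Plane} (hd : Tendsto d F (𝓝 d₀)) (hx : Tendsto x F (𝓝 x₀)) :
    Tendsto (fun i => expand (d i) (x i)) F (𝓝 (expand d₀ x₀)) :=
  (continuous_expand.tendsto (d₀, x₀)).comp (hd.prodMk_nhds hx)

/-- `f` maps every tile of `C` onto a union of exactly `k` tiles of `C`. -/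
def Comp (P : Set Plane) (k : ℕ) (f : Plane → Plane) (C : Set G) : Prop :=
  ∀ z ∈ C, ∃ g : Fin k → G, (∀ i, g i ∈ C) ∧ (∀ i j, i ≠ j → tile P (g i) ≠ tile P (g j)) ∧
    f '' tile P z = ⋃ i, tile P (g i)

/-- Good expansion data. -/
def Good (P : Set Plane) (k n : ℕ) (C : Set G) (d : G × ℝ) : Prop :=
  Iso d.1 ∧ 7 / 5 ≤ d.2 ∧ d.2 ≤ n ∧ ‖d.1‖ ≤ n ∧ Comp P k (expand d) C

/-- Placement sets with good expansions of bounded size. -/
def Yset (P : Set Plane) (k n : ℕ) : Set (X P) := {C | ∃ d, Good P k n C.1 d}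

theorem norm_act_le {z : G} (hz : Iso z) (x : Plane) : ‖act z x‖ ≤ ‖z‖ + ‖x‖ := by
  unfold act
  calc ‖z.1 + z.2 x‖ ≤ ‖z.1‖ + ‖z.2 x‖ := norm_add_le _ _
    _ ≤ _ := by rw [hz]; gcongr; exact norm_fst_le z

theorem isClosed_Yset {P : Set Plane} (hP : IsCompact P) (hne : (interior P).Nonempty)
    (k n : ℕ) : IsClosed (Yset P k n) := by
  classical
  obtain ⟨D, hD⟩ := hP.isBounded.exists_norm_le
  obtain ⟨p₀, hp₀⟩ := hne
  have hp₀P : p₀ ∈ P := interior_subset hp₀
  rw [isClosed_iff_ultrafilter]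
  intro C₀ F hF hY
  have hY' : ∀ᶠ C in F, C ∈ Yset P k n := hY
  -- choose expansions
  have h1 : ∀ C : X P, ∃ d : G × ℝ, C ∈ Yset P k n → Good P k n C.1 d := by
    intro C
    by_cases h : C ∈ Yset P k n
    · obtain ⟨d, hd⟩ := h
      exact ⟨d, fun _ => hd⟩
    · exact ⟨0, fun h' => absurd h' h⟩
  choose d hd using h1
  obtain ⟨e₀, he₀⟩ := exists_limit F (fun C => (d C).1) n (by
    filter_upwards [hY'] with C hC using (hd C hC).2.2.2.1)
  obtain ⟨c₀, hc₀mem, hc₀⟩ := (isCompact_Icc (a := (7/5 : ℝ)) (b := n)).ultrafilter_le_nhds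
    (F.map (fun C => (d C).2)) (by
      rw [le_principal_iff]
      show ∀ᶠ C in F, (d C).2 ∈ Icc (7/5 : ℝ) n
      filter_upwards [hY'] with C hC using ⟨(hd C hC).2.1, (hd C hC).2.2.1⟩)
  have hc₀' : Tendsto (fun C => (d C).2) F (𝓝 c₀) := hc₀
  have hdlim : Tendsto d F (𝓝 (e₀, c₀)) := he₀.prodMk_nhds hc₀'
  have hiso₀ : Iso e₀ := iso_closed.mem_of_tendsto he₀ (by
    filter_upwards [hY'] with C hC using (hd C hC).1)
  refine ⟨(e₀, c₀), hiso₀, hc₀mem.1, hc₀mem.2, ?_, ?_⟩
  · exact le_of_tendsto he₀.norm (by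
      filter_upwards [hY'] with C hC using (hd C hC).2.2.2.1)
  intro z hz
  obtain ⟨w, hw, hwz⟩ := exists_seq hF hz
  have h2 : ∀ C : X P, ∃ g : Fin k → G, C ∈ Yset P k n → (∀ i, g i ∈ C.1) ∧
      (∀ i j, i ≠ j → tile P (g i) ≠ tile P (g j)) ∧
      expand (d C) '' tile P (w C) = ⋃ i, tile P (g i) := by
    intro C
    by_cases h : C ∈ Yset P k n
    · obtain ⟨g, hg⟩ := (hd C h).2.2.2.2 (w C) (hw C)
      exact ⟨g, fun _ => hg⟩
    · exact ⟨0, fun h' => absurd h' h⟩
  choose g hg using h2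
  have hwiso : ∀ C, Iso (w C) := fun C => C.2.iso _ (hw C)
  have hziso : Iso z := C₀.2.iso z hz
  have hbound : ∀ i, ∃ g₀, Tendsto (fun C => g C i) F (𝓝 g₀) := by
    intro i
    apply exists_limit F _ (n + n * ((‖z‖ + 1) + D) + D + 1)
    have hev : ∀ᶠ C in F, ‖w C‖ ≤ ‖z‖ + 1 := by
      have := hwz.norm.eventually (gt_mem_nhds (show ‖z‖ < ‖z‖ + 1 by linarith))
      exact this.mono fun C hC => le_of_lt hC
    filter_upwards [hY', hev] with C hC hCw
    obtain ⟨hg1, hg2, hg3⟩ := hg C hC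
    have hiso : Iso (g C i) := C.2.iso _ (hg1 i)
    have hx : act (g C i) p₀ ∈ tile P (g C i) := ⟨p₀, hp₀P, rfl⟩
    have hx' : act (g C i) p₀ ∈ expand (d C) '' tile P (w C) := by
      rw [hg3]; exact mem_iUnion.mpr ⟨i, hx⟩
    obtain ⟨_, ⟨q, hq, rfl⟩, hqe⟩ := hx'
    have hb := norm_le_of_mem hD hiso hx
    have h3 : ‖act (g C i) p₀‖ ≤ n + n * ((‖z‖ + 1) + D) := by
      rw [← hqe]
      unfold expand
      have e1 : ‖(d C).1.1‖ ≤ n := (norm_fst_le _).trans (hd C hC).2.2.2.1
      have e2 : ‖(d C).2 • (d C).1.2 (act (w C) q)‖ ≤ n * ((‖z‖ + 1) + D) := by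
        rw [norm_smul, (hd C hC).1, Real.norm_eq_abs, abs_of_nonneg (by
          have := (hd C hC).2.1; linarith)]
        have e3 := norm_act_le (hwiso C) q
        have e4 := hD q hq
        have e5 := (hd C hC).2.2.1
        have e6 : (0 : ℝ) ≤ (d C).2 := by
          have := (hd C hC).2.1; linarith
        apply mul_le_mul e5 _ (norm_nonneg _) (by positivity)
        linarith
      exact (norm_add_le _ _).trans (add_le_add e1 e2)
    linarith
  choose g₀ hg₀ using hbound
  have hgmem : ∀ i, g₀ i ∈ C₀.1 := by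
    intro i
    have h3 : ∀ C : X P, ∃ v : G, v ∈ C.1 ∧ (C ∈ Yset P k n → v = g C i) := by
      intro C
      by_cases h : C ∈ Yset P k n
      · exact ⟨g C i, (hg C h).1 i, fun _ => rfl⟩
      · exact ⟨w C, hw C, fun h' => absurd h' h⟩
    refine mem_limit_iff hF (w := fun C => g C i) ?_ (hg₀ i)
    filter_upwards [hY'] with C hC using (hg C hC).1 i
  refine ⟨g₀, hgmem, ?_, ?_⟩
  · intro i j hij heq
    have hi : Iso (g₀ i) := C₀.2.iso _ (hgmem i)
    have hj : Iso (g₀ j) := C₀.2.iso _ (hgmem j)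
    have hy : act (g₀ i) p₀ ∈ interior (tile P (g₀ i)) := by
      rw [interior_tile P hi]; exact ⟨p₀, hp₀, rfl⟩
    have hisoi : ∀ i, ∀ᶠ C in F, Iso (g C i) := by
      intro i
      filter_upwards [hY'] with C hC using C.2.iso _ ((hg C hC).1 i)
    have e1 := eventually_mem_interior (hg₀ i) (hisoi i) hi
      (tendsto_const_nhds (x := act (g₀ i) p₀)) hy
    have e2 := eventually_mem_interior (hg₀ j) (hisoi j) hj
      (tendsto_const_nhds (x := act (g₀ i) p₀)) (heq ▸ hy)
    obtain ⟨C, hC, hC1, hC2⟩ := (hY'.and (e1.and e2)).exists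
    have := C.2.disj _ ((hg C hC).1 i) _ ((hg C hC).1 j) ((hg C hC).2.1 i j hij)
    exact (Set.disjoint_left.mp this) hC1 hC2
  · apply subset_antisymm
    · rintro _ ⟨_, ⟨q, hq, rfl⟩, rfl⟩
      -- the image point lies in one of the tiles
      have e1 : ∀ᶠ C in F, ∃ i, ∃ p ∈ P, act (g C i) p = expand (d C) (act (w C) q) := by
        filter_upwards [hY'] with C hC
        have : expand (d C) (act (w C) q) ∈ ⋃ i, tile P (g C i) := by
          rw [← (hg C hC).2.2]
          exact ⟨_, ⟨q, hq, rfl⟩, rfl⟩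
        obtain ⟨i, p, hp, hpe⟩ := mem_iUnion.mp this
        exact ⟨i, p, hp, hpe⟩
      obtain ⟨i, hi⟩ := Ultrafilter.eventually_exists_iff.mp e1
      have h3 : ∀ C, ∃ p, (∃ p ∈ P, act (g C i) p = expand (d C) (act (w C) q)) →
          p ∈ P ∧ act (g C i) p = expand (d C) (act (w C) q) := by
        intro C
        by_cases h : ∃ p ∈ P, act (g C i) p = expand (d C) (act (w C) q)
        · obtain ⟨p, hp⟩ := h
          exact ⟨p, fun _ => hp⟩
        · exact ⟨0, fun h' => absurd h' h⟩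
      choose p hp using h3
      obtain ⟨p₁, hp₁, hlim⟩ := exists_limit' F hP p (by
        filter_upwards [hi] with C hC using (hp C hC).1)
      refine mem_iUnion.mpr ⟨i, p₁, hp₁, ?_⟩
      have e2 := tendsto_act (hg₀ i) hlim
      have e3 := tendsto_expand hdlim (tendsto_act hwz (tendsto_const_nhds (x := q)))
      refine tendsto_nhds_unique (e2.congr' ?_) e3
      filter_upwards [hi] with C hC using (hp C hC).2
    · apply iUnion_subset
      rintro i _ ⟨p, hp, rfl⟩
      have e1 : ∀ᶠ C in F, ∃ q ∈ P, expand (d C) (act (w C) q) = act (g C i) p := by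
        filter_upwards [hY'] with C hC
        have : act (g C i) p ∈ expand (d C) '' tile P (w C) := by
          rw [(hg C hC).2.2]
          exact mem_iUnion.mpr ⟨i, p, hp, rfl⟩
        obtain ⟨_, ⟨q, hq, rfl⟩, hqe⟩ := this
        exact ⟨q, hq, hqe⟩
      have h3 : ∀ C, ∃ q, (∃ q ∈ P, expand (d C) (act (w C) q) = act (g C i) p) →
          q ∈ P ∧ expand (d C) (act (w C) q) = act (g C i) p := by
        intro C
        by_cases h : ∃ q ∈ P, expand (d C) (act (w C) q) = act (g C i) p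
        · obtain ⟨q, hq⟩ := h
          exact ⟨q, fun _ => hq⟩
        · exact ⟨0, fun h' => absurd h' h⟩
      choose q hq using h3
      obtain ⟨q₁, hq₁, hlim⟩ := exists_limit' F hP q (by
        filter_upwards [e1] with C hC using (hq C hC).1)
      refine ⟨act z q₁, ⟨q₁, hq₁, rfl⟩, ?_⟩
      have e2 := tendsto_act (hg₀ i) (tendsto_const_nhds (x := p))
      have e3 := tendsto_expand hdlim (tendsto_act hwz hlim)
      refine tendsto_nhds_unique (e3.congr' ?_) e2
      filter_upwards [e1] with C hC using (hq C hC).2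

/-! ### Similarities as permutations -/

/-- `f` multiplies distances by `c`. -/
def Sim (c : ℝ) (f : Equiv.Perm Plane) : Prop := 0 < c ∧ ∀ x y, dist (f x) (f y) = c * dist x y

theorem Sim.mul {c c' : ℝ} {f f' : Equiv.Perm Plane} (h : Sim c f) (h' : Sim c' f') :
    Sim (c * c') (f * f') := by
  refine ⟨mul_pos h.1 h'.1, fun x y => ?_⟩
  rw [Equiv.Perm.mul_apply, Equiv.Perm.mul_apply, h.2, h'.2, mul_assoc]

theorem Sim.inv {c : ℝ} {f : Equiv.Perm Plane} (h : Sim c f) : Sim c⁻¹ f⁻¹ := by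
  refine ⟨inv_pos.mpr h.1, fun x y => ?_⟩
  have := h.2 (f⁻¹ x) (f⁻¹ y)
  have e : ∀ x, f (f⁻¹ x) = x := fun x => f.apply_symm_apply x
  rw [e, e] at this
  rw [this, ← mul_assoc, inv_mul_cancel₀ h.1.ne', one_mul]

theorem Sim.isSimilarity {c : ℝ} {f : Equiv.Perm Plane} (h : Sim c f) : IsSimilarity f := by
  have hc := h.1
  let e : Plane ≃ Plane := f.trans (Equiv.mk (fun x => c⁻¹ • x) (fun x => c • x)
    (fun x => by simp [smul_smul, hc.ne']) (fun x => by simp [smul_smul, hc.ne']))
  have he : ∀ x, e x = c⁻¹ • f x := fun x => rfl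
  have hiso : Isometry e := by
    refine Isometry.of_dist_eq fun x y => ?_
    rw [he, he, dist_smul₀, h.2, Real.norm_eq_abs, abs_of_pos (inv_pos.mpr hc), ← mul_assoc,
      inv_mul_cancel₀ hc.ne', one_mul]
  refine ⟨⟨e, hiso⟩, c, hc, fun x => ?_⟩
  show f x = c • e x
  rw [he, smul_smul, mul_inv_cancel₀ hc.ne', one_smul]

theorem exists_data {f : Plane → Plane} (h : IsSimilarity f) :
    ∃ d : G × ℝ, Iso d.1 ∧ 0 < d.2 ∧ f = expand d := by
  obtain ⟨g, c, hc, hf⟩ := h
  obtain ⟨z, hz, hg⟩ := exists_placement g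
  refine ⟨((c • z.1, z.2), c), hz, hc, ?_⟩
  ext1 x
  rw [hf, hg]
  unfold act expand
  rw [smul_add]

theorem exists_perm {d : G × ℝ} (hd : Iso d.1) (hc : 0 < d.2) :
    ∃ f : Equiv.Perm Plane, (∀ x, f x = expand d x) ∧ Sim d.2 f := by
  obtain ⟨g, hg⟩ := exists_equiv (z := (d.2⁻¹ • d.1.1, d.1.2)) hd
  let f : Equiv.Perm Plane := g.toEquiv.trans (Equiv.mk (fun x => d.2 • x) (fun x => d.2⁻¹ • x)
    (fun x => by simp [smul_smul, hc.ne']) (fun x => by simp [smul_smul, hc.ne']))
  have hf : ∀ x, f x = d.2 • g x := fun x => rfl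
  refine ⟨f, fun x => ?_, hc, fun x y => ?_⟩
  · rw [hf, hg]
    unfold act expand
    rw [smul_add, smul_smul, mul_inv_cancel₀ hc.ne', one_smul]
  · rw [hf, hf, dist_smul₀, g.dist_eq, Real.norm_eq_abs, abs_of_pos hc]

theorem exists_perm' {f : Plane → Plane} (h : IsSimilarity f) :
    ∃ (c : ℝ) (e : Equiv.Perm Plane), f = e ∧ Sim c e := by
  obtain ⟨d, h1, h2, rfl⟩ := exists_data h
  obtain ⟨e, he, hs⟩ := exists_perm h1 h2
  exact ⟨d.2, e, by ext1 x; exact (he x).symm, hs⟩

/-- The induced map on families of sets. -/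
def img (f : Plane → Plane) (T : Set (Set Plane)) : Set (Set Plane) := (fun A => f '' A) '' T

theorem img_img (f g : Plane → Plane) (T : Set (Set Plane)) :
    img f (img g T) = img (f ∘ g) T := by
  unfold img
  rw [image_image]
  simp only [image_image]
  rfl

theorem img_mul (f g : Equiv.Perm Plane) (T : Set (Set Plane)) :
    img (f * g : Equiv.Perm Plane) T = img f (img g T) := by
  rw [img_img]
  rfl

theorem img_one (T : Set (Set Plane)) : img (1 : Equiv.Perm Plane) T = T := by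
  unfold img
  simp

/-- A homeomorphism from a similarity. -/
theorem exists_homeo {c : ℝ} {f : Equiv.Perm Plane} (h : Sim c f) :
    ∃ e : Plane ≃ₜ Plane, ∀ x, e x = f x := by
  have h1 : Continuous f := by
    have : LipschitzWith ⟨c, h.1.le⟩ f := LipschitzWith.of_dist_le_mul fun x y => (h.2 x y).le
    exact this.continuous
  have h2 : Continuous f.symm := by
    have : LipschitzWith ⟨c⁻¹, h.inv.1.le⟩ (f⁻¹ : Equiv.Perm Plane) :=
      LipschitzWith.of_dist_le_mul fun x y => (h.inv.2 x y).le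
    exact this.continuous
  exact ⟨⟨f, h1, h2⟩, fun x => rfl⟩

theorem image_interior_sim {c : ℝ} {f : Equiv.Perm Plane} (h : Sim c f) (A : Set Plane) :
    f '' interior A = interior (f '' A) := by
  obtain ⟨e, he⟩ := exists_homeo h
  have : (f : Plane → Plane) = e := by ext1 x; exact (he x).symm
  rw [this]
  exact e.image_interior A

theorem isDisk_image {c : ℝ} {f : Equiv.Perm Plane} (h : Sim c f) {A : Set Plane}
    (hA : IsDisk A) : IsDisk (f '' A) := by
  obtain ⟨e, he⟩ := exists_homeo h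
  have : (f : Plane → Plane) = e := by ext1 x; exact (he x).symm
  rw [this]
  obtain ⟨u⟩ := hA
  exact ⟨(e.image A).symm.trans u⟩

theorem isTiling_img {c : ℝ} {f : Equiv.Perm Plane} (h : Sim c f) {T : Set (Set Plane)}
    (hT : IsTiling T) : IsTiling (img f T) := by
  refine ⟨hT.countable.image _, ?_, ?_, ?_⟩
  · rintro _ ⟨A, hA, rfl⟩
    exact isDisk_image h (hT.disk A hA)
  · rw [eq_univ_iff_forall]
    intro x
    have hx : f.symm x ∈ ⋃₀ T := by rw [hT.cover]; trivial
    obtain ⟨A, hA, hxA⟩ := hx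
    exact ⟨f '' A, ⟨A, hA, rfl⟩, f.symm x, hxA, by simp⟩
  · rintro _ ⟨A, hA, rfl⟩ _ ⟨B, hB, rfl⟩ hne
    have hne' : A ≠ B := fun h => hne (by rw [h])
    show Disjoint (interior (f '' A)) (interior (f '' B))
    rw [← image_interior_sim h, ← image_interior_sim h]
    exact (disjoint_image_iff f.injective).mpr (hT.disjoint A hA B hB hne')

theorem isComposition_img {c : ℝ} {f : Equiv.Perm Plane} (h : Sim c f) {k : ℕ}
    {T₁ T₂ : Set (Set Plane)} (hT : IsComposition k T₁ T₂) :
    IsComposition k (img f T₁) (img f T₂) := by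
  classical
  refine ⟨isTiling_img h hT.1, ?_⟩
  rintro _ ⟨A, hA, rfl⟩
  obtain ⟨S, hS1, hS2, hS3⟩ := hT.2 A hA
  have hinj : Function.Injective (fun A : Set Plane => f '' A) := f.injective.image_injective
  refine ⟨S.image (fun A => f '' A), ?_, ?_, ?_⟩
  · rw [Finset.coe_image]
    exact image_mono hS1
  · rw [Finset.card_image_of_injective _ hinj, hS2]
  · show f '' A = _
    rw [Finset.coe_image, hS3, sUnion_image, sUnion_eq_biUnion, image_iUnion₂]

theorem equal_img {c : ℝ} {f : Equiv.Perm Plane} (h : Sim c f) (T : Set (Set Plane)) :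
    Equal T (img f T) := ⟨f, h.isSimilarity, rfl⟩

/-! ### Monohedral tilings: rigidity of symmetries -/

theorem exists_perm_isom (g : Plane ≃ᵢ Plane) : Sim 1 g.toEquiv :=
  ⟨one_pos, fun x y => by rw [one_mul]; exact g.dist_eq x y⟩

/-- Data of a prototile. -/
structure Proto (P : Set Plane) (p₀ : Plane) (r D : ℝ) : Prop where
  rpos : 0 < r
  ball : ball p₀ r ⊆ P
  bound : P ⊆ closedBall p₀ D

theorem exists_proto {P : Set Plane} (hP : IsCompact P) (hne : (interior P).Nonempty) :
    ∃ p₀ r D, Proto P p₀ r D := by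
  obtain ⟨p₀, hp⟩ := hne
  obtain ⟨r, hr, hb⟩ := Metric.isOpen_iff.mp isOpen_interior p₀ hp
  obtain ⟨D, hD⟩ := hP.isBounded.subset_closedBall p₀
  exact ⟨p₀, r, D, hr, hb.trans interior_subset, hD⟩

/-- The symmetry permutations of a tiling. -/
def Sym (T : Set (Set Plane)) : Set (Equiv.Perm Plane) := {s | Sim 1 s ∧ img s T = T}

theorem Sym.mul {T : Set (Set Plane)} {s t : Equiv.Perm Plane} (hs : s ∈ Sym T) (ht : t ∈ Sym T) :
    s * t ∈ Sym T := by
  refine ⟨by simpa using hs.1.mul ht.1, ?_⟩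
  rw [img_mul, ht.2, hs.2]

theorem Sym.inv {T : Set (Set Plane)} {s : Equiv.Perm Plane} (hs : s ∈ Sym T) : s⁻¹ ∈ Sym T := by
  refine ⟨by simpa using hs.1.inv, ?_⟩
  conv_lhs => rw [← hs.2]
  rw [← img_mul, inv_mul_cancel, img_one]

/-- A similarity that maps a monohedral tiling onto itself is an isometry. -/
theorem sim_eq_one {P : Set Plane} {p₀ : Plane} {r D : ℝ} (hP : Proto P p₀ r D)
    {T : Set (Set Plane)} (hT : Admits P T) {c : ℝ} {s : Equiv.Perm Plane} (hs : Sim c s)
    (h : img s T = T) : c = 1 := by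
  have hx : (0 : Plane) ∈ ⋃₀ T := by rw [hT.1.cover]; trivial
  obtain ⟨A, hA, _⟩ := hx
  obtain ⟨g, hg⟩ := hT.2 A hA
  have hsA : s '' A ∈ T := by rw [← h]; exact ⟨A, hA, rfl⟩
  obtain ⟨g', hg'⟩ := hT.2 _ hsA
  have hb : Bornology.IsBounded P := isBounded_closedBall.subset hP.bound
  have hd1 : diam (s '' A) = c * diam A := by
    have hbA : Bornology.IsBounded A := by
      rw [hg]; exact g.isometry.lipschitz.isBounded_image hb
    apply le_antisymm
    · apply diam_le_of_forall_dist_le (mul_nonneg hs.1.le diam_nonneg)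
      rintro _ ⟨x, hx, rfl⟩ _ ⟨y, hy, rfl⟩
      rw [hs.2]
      exact mul_le_mul_of_nonneg_left (dist_le_diam_of_mem hbA hx hy) hs.1.le
    · have h1 : diam A ≤ c⁻¹ * diam (s '' A) := by
        apply diam_le_of_forall_dist_le (mul_nonneg (inv_pos.mpr hs.1).le diam_nonneg)
        intro x hx y hy
        have hb' : Bornology.IsBounded (s '' A) := by
          rw [hg']; exact g'.isometry.lipschitz.isBounded_image hb
        have := dist_le_diam_of_mem hb' (mem_image_of_mem s hx) (mem_image_of_mem s hy)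
        rw [hs.2] at this
        rw [inv_mul_eq_div, le_div_iff₀ hs.1]
        linarith
      rw [inv_mul_eq_div, le_div_iff₀ hs.1] at h1
      linarith
  have e1 : diam A = diam P := by rw [hg]; exact g.isometry.diam_image P
  have e2 : diam (s '' A) = diam P := by rw [hg']; exact g'.isometry.diam_image P
  have hpos : 0 < diam P := by
    have h1 : (0 : ℝ) < diam (ball p₀ r) := by
      obtain ⟨v, hv⟩ := exists_norm_eq Plane (show (0 : ℝ) ≤ r / 2 by linarith [hP.rpos])
      have h2 : p₀ + v ∈ ball p₀ r := by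
        rw [mem_ball, dist_eq_norm, add_sub_cancel_left, hv]; linarith [hP.rpos]
      have h3 : p₀ ∈ ball p₀ r := mem_ball_self hP.rpos
      have h4 := dist_le_diam_of_mem isBounded_ball h2 h3
      rw [dist_eq_norm, add_sub_cancel_left, hv] at h4
      linarith [hP.rpos]
    exact h1.trans_le (diam_mono hP.ball hb)
  rw [e2, e1] at hd1
  have : (c - 1) * diam P = 0 := by linarith
  rcases mul_eq_zero.mp this with h | h
  · linarith
  · exact absurd h hpos.ne'

/-- no small subgroups for linear isometries -/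
theorem linear_eq_one (L : Plane →L[ℝ] Plane) (h : ∀ m : ℕ, ‖L ^ m - 1‖ ≤ 1 / 2) : L = 1 := by
  have hbdd : BddAbove (range fun m : ℕ => ‖L ^ m - 1‖) := ⟨1 / 2, by rintro _ ⟨m, rfl⟩; exact h m⟩
  set δ := ⨆ m : ℕ, ‖L ^ m - 1‖ with hδ
  have h1 : ∀ m, ‖L ^ m - 1‖ ≤ δ := fun m => le_ciSup hbdd m
  have h0 : 0 ≤ δ := (norm_nonneg _).trans (h1 0)
  have h2 : ∀ m, ‖L ^ m - 1‖ ≤ 2 / 3 * δ := by
    intro m
    have e : (2 : ℝ) • (L ^ m - 1) = (L ^ (2 * m) - 1) - (L ^ m - 1) * (L ^ m - 1) := by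
      have e0 : (2 : ℝ) • (L ^ m - 1) = (L ^ m - 1) + (L ^ m - 1) := by
        ext1 x
        show (2 : ℝ) • ((L ^ m - 1) x) = (L ^ m - 1) x + (L ^ m - 1) x
        exact two_smul ℝ _
      rw [e0, two_mul, pow_add, sub_mul, mul_sub, mul_one, one_mul]
      abel
    have e2 : 2 * ‖L ^ m - 1‖ ≤ δ + 1 / 2 * ‖L ^ m - 1‖ := by
      calc 2 * ‖L ^ m - 1‖ = ‖(2 : ℝ) • (L ^ m - 1)‖ := by rw [norm_smul]; norm_num
        _ ≤ ‖L ^ (2 * m) - 1‖ + ‖(L ^ m - 1) * (L ^ m - 1)‖ := by rw [e]; exact norm_sub_le _ _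
        _ ≤ δ + 1 / 2 * ‖L ^ m - 1‖ := by
          gcongr
          · exact h1 _
          · exact (norm_mul_le _ _).trans (mul_le_mul_of_nonneg_right (h m) (norm_nonneg _))
    linarith
  have h3 : δ ≤ 2 / 3 * δ := ciSup_le h2
  have h4 : δ = 0 := by linarith
  have h5 := h1 1
  rw [h4, pow_one] at h5
  exact sub_eq_zero.mp (norm_le_zero_iff.mp h5)

/-- A symmetry close to the identity on a large ball is the identity. -/
theorem small_sym {P : Set Plane} {p₀ : Plane} {r D : ℝ} (hP : Proto P p₀ r D)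
    {T : Set (Set Plane)} (hT : Admits P T) {s : Equiv.Perm Plane} (hs : s ∈ Sym T)
    (hsmall : ∀ x : Plane, ‖x‖ ≤ 9 * D → dist (s x) x < r) : s = 1 := by
  have hD : 0 < D := by
    by_contra hD
    push Not at hD
    obtain ⟨v, hv⟩ := exists_norm_eq Plane (show (0 : ℝ) ≤ r / 2 by linarith [hP.rpos])
    have h2 : p₀ + v ∈ ball p₀ r := by
      rw [mem_ball, dist_eq_norm, add_sub_cancel_left, hv]; linarith [hP.rpos]
    have h3 := hP.bound (hP.ball h2)
    rw [mem_closedBall, dist_eq_norm, add_sub_cancel_left, hv] at h3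
    linarith [hP.rpos]
  -- powers of `s` move points of the ball of radius `8 D` by at most `2 D`
  have key : ∀ x : Plane, ‖x‖ ≤ 8 * D → ∀ m : ℕ, dist ((s ^ m) x) x ≤ 2 * D := by
    intro x hx m
    have hxu : x ∈ ⋃₀ T := by rw [hT.1.cover]; trivial
    obtain ⟨A, hA, hxA⟩ := hxu
    obtain ⟨g, hg⟩ := hT.2 A hA
    have hgball : ball (g p₀) r ⊆ A := by
      rw [hg]
      intro y hy
      refine ⟨g.symm y, hP.ball ?_, by simp⟩
      rw [mem_ball] at hy ⊢
      rw [← g.dist_eq]
      simpa using hy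
    have hgbd : A ⊆ closedBall (g p₀) D := by
      rw [hg]
      rintro _ ⟨y, hy, rfl⟩
      rw [mem_closedBall, g.dist_eq]
      exact hP.bound hy
    have hc : ‖g p₀‖ ≤ 9 * D := by
      have h1 := hgbd hxA
      rw [mem_closedBall, dist_eq_norm] at h1
      calc ‖g p₀‖ = ‖x - (x - g p₀)‖ := by congr 1; abel
        _ ≤ ‖x‖ + ‖x - g p₀‖ := norm_sub_le _ _
        _ ≤ _ := by linarith
    have hsA : s '' A ∈ T := by rw [← hs.2]; exact ⟨A, hA, rfl⟩
    have heq : s '' A = A := by
      by_contra hne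
      have hdisj := hT.1.disjoint _ hsA _ hA hne
      have h1 : s (g p₀) ∈ interior A := by
        apply interior_maximal hgball isOpen_ball
        exact hsmall _ hc
      have h2 : s (g p₀) ∈ interior (s '' A) := by
        rw [← image_interior_sim hs.1]
        exact ⟨_, interior_maximal hgball isOpen_ball (mem_ball_self hP.rpos), rfl⟩
      exact (Set.disjoint_left.mp hdisj) h2 h1
    have hmem : ∀ m : ℕ, (s ^ m) x ∈ A := by
      intro m
      induction m with
      | zero => simpa using hxA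
      | succ m ih =>
        rw [pow_succ', Equiv.Perm.mul_apply, ← heq]
        exact mem_image_of_mem _ ih
    have h1 := hgbd (hmem m)
    have h2 := hgbd hxA
    rw [mem_closedBall] at h1 h2
    calc dist ((s ^ m) x) x ≤ dist ((s ^ m) x) (g p₀) + dist x (g p₀) := dist_triangle_right _ _ _
      _ ≤ _ := by linarith
  -- linear part
  let e : Plane ≃ᵢ Plane := ⟨s, Isometry.of_dist_eq fun x y => by
    show dist (s x) (s y) = dist x y
    rw [hs.1.2, one_mul]⟩
  obtain ⟨z, hz, hez⟩ := exists_placement e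
  have hsz : ∀ x, s x = act z x := hez
  have hpow : ∀ (m : ℕ) (x : Plane), (s ^ m) x - (s ^ m) 0 = (z.2 ^ m) x := by
    intro m
    induction m with
    | zero => intro x; simp
    | succ m ih =>
      intro x
      rw [pow_succ', pow_succ', Equiv.Perm.mul_apply, Equiv.Perm.mul_apply, hsz, hsz]
      show z.1 + z.2 _ - (z.1 + z.2 _) = z.2 ((z.2 ^ m) x)
      rw [← ih, map_sub]
      abel
  have hL : z.2 = 1 := by
    apply linear_eq_one
    intro m
    apply ContinuousLinearMap.opNorm_le_bound _ (by norm_num)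
    intro x
    by_cases hx0 : x = 0
    · simp [hx0]
    have hxn : 0 < ‖x‖ := norm_pos_iff.mpr hx0
    set y : Plane := (8 * D / ‖x‖) • x with hy
    have hyn : ‖y‖ = 8 * D := by
      rw [hy, norm_smul, Real.norm_eq_abs, abs_of_pos (by positivity)]
      field_simp
    have h1 := key y hyn.le m
    have h2 := key 0 (by simp; exact hD.le) m
    have h3 : ‖(z.2 ^ m - 1) y‖ ≤ 4 * D := by
      have : (z.2 ^ m - 1) y = ((s ^ m) y - y) - ((s ^ m) 0 - 0) := by
        show (z.2 ^ m) y - y = _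
        rw [← hpow]
        abel
      rw [this]
      rw [dist_eq_norm] at h1 h2
      calc _ ≤ ‖(s ^ m) y - y‖ + ‖(s ^ m) 0 - 0‖ := norm_sub_le _ _
        _ ≤ _ := by linarith
    have h4 : (z.2 ^ m - 1) y = (8 * D / ‖x‖) • (z.2 ^ m - 1) x := by
      rw [hy, map_smul]
    rw [h4, norm_smul, Real.norm_eq_abs, abs_of_pos (by positivity)] at h3
    rw [div_mul_eq_mul_div, div_le_iff₀ hxn] at h3
    have h5 : 8 * D * ‖(z.2 ^ m - 1) x‖ ≤ 8 * D * (1 / 2 * ‖x‖) := by linarith
    exact le_of_mul_le_mul_left h5 (by positivity)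
  have hsx : ∀ x, s x = x + z.1 := by
    intro x
    rw [hsz]
    unfold act
    rw [hL]
    show z.1 + x = x + z.1
    abel
  have hpow2 : ∀ m : ℕ, (s ^ m) 0 = (m : ℝ) • z.1 := by
    intro m
    induction m with
    | zero => simp
    | succ m ih =>
      rw [pow_succ', Equiv.Perm.mul_apply, ih, hsx]
      push_cast
      rw [add_smul, one_smul]
  have hz1 : z.1 = 0 := by
    by_contra hne
    have hpos : 0 < ‖z.1‖ := norm_pos_iff.mpr hne
    obtain ⟨m, hm⟩ := exists_nat_gt (2 * D / ‖z.1‖)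
    have h1 := key 0 (by simp; exact hD.le) m
    rw [hpow2, dist_zero_right, norm_smul, Real.norm_eq_abs, abs_of_nonneg (by positivity)] at h1
    rw [div_lt_iff₀ hpos] at hm
    linarith
  ext1 x
  rw [hsx, hz1, add_zero]
  rfl

/-- Two expansions with the same unique composition have the same fixed point. -/
theorem fixed_eq {P : Set Plane} {p₀ : Plane} {r D : ℝ} (hP : Proto P p₀ r D)
    {T T₁ : Set (Set Plane)} (hT : Admits P T) {k : ℕ}
    (huniq : ∀ T', IsComposition k T' T → Equal T T' → T' = T₁)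
    {c₁ c₂ : ℝ} {f₁ f₂ : Equiv.Perm Plane} (h₁ : Sim c₁ f₁) (h₂ : Sim c₂ f₂)
    (hc₂ : 1 < c₂) (hf₁ : IsComposition k (img f₁ T) T) (hf₂ : IsComposition k (img f₂ T) T)
    {x₁ x₂ : Plane} (hx₁ : f₁ x₁ = x₁) (hx₂ : f₂ x₂ = x₂) : x₁ = x₂ := by
  have e₁ : img f₁ T = T₁ := huniq _ hf₁ (equal_img h₁ T)
  have e₂ : img f₂ T = T₁ := huniq _ hf₂ (equal_img h₂ T)
  -- the quotient of the expansions is a symmetry
  have hq : f₂⁻¹ * f₁ ∈ Sym T := by
    have h3 : img (f₂⁻¹ * f₁ : Equiv.Perm Plane) T = T := by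
      rw [img_mul, e₁, ← e₂, ← img_mul, inv_mul_cancel, img_one]
    have h4 := h₂.inv.mul h₁
    have h5 := sim_eq_one hP hT h4 h3
    rw [h5] at h4
    exact ⟨h4, h3⟩
  -- conjugation
  have hconj : ∀ s ∈ Sym T, f₁⁻¹ * s * f₁ ∈ Sym T := by
    intro s hs
    have h3 : img s T₁ = T₁ := by
      apply huniq
      · have := isComposition_img hs.1 hf₁
        rwa [hs.2, e₁] at this
      · have h6 : img s T₁ = img (s * f₁ : Equiv.Perm Plane) T := by rw [img_mul, e₁]
        rw [h6]
        exact equal_img (hs.1.mul h₁) T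
    refine ⟨?_, ?_⟩
    · have h4 := (h₁.inv.mul hs.1).mul h₁
      have h5 : c₁⁻¹ * 1 * c₁ = 1 := by
        rw [mul_one, inv_mul_cancel₀ h₁.1.ne']
      rwa [h5] at h4
    · rw [img_mul, img_mul, e₁, h3, ← e₁, ← img_mul, inv_mul_cancel, img_one]
  have ht : ∀ m : ℕ, (f₂⁻¹) ^ m * f₁ ^ m ∈ Sym T := by
    intro m
    induction m with
    | zero =>
      refine ⟨by simpa using ⟨one_pos, fun x y => by simp⟩, by simpa using img_one T⟩
    | succ m ih =>
      have e : (f₂⁻¹) ^ (m + 1) * f₁ ^ (m + 1) =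
          (f₂⁻¹ * f₁) * (f₁⁻¹ * ((f₂⁻¹) ^ m * f₁ ^ m) * f₁) := by
        rw [pow_succ' (f₂⁻¹) m, pow_succ f₁ m]
        group
      rw [e]
      exact Sym.mul hq (hconj _ ih)
  by_contra hne
  have hpos : 0 < dist x₁ x₂ := dist_pos.mpr hne
  have hfx : ∀ m : ℕ, (f₁ ^ m) x₁ = x₁ := by
    intro m
    induction m with
    | zero => simp
    | succ m ih => rw [pow_succ', Equiv.Perm.mul_apply, ih, hx₁]
  have hval : ∀ m : ℕ, dist (((f₂⁻¹) ^ m * f₁ ^ m : Equiv.Perm Plane) x₁) x₂ =
      (c₂⁻¹) ^ m * dist x₁ x₂ := by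
    intro m
    rw [Equiv.Perm.mul_apply, hfx]
    induction m with
    | zero => simp
    | succ m ih =>
      have h3 : (f₂⁻¹) x₂ = x₂ := by
        conv_lhs => rw [← hx₂]
        exact f₂.symm_apply_apply x₂
      rw [pow_succ', Equiv.Perm.mul_apply, pow_succ', mul_assoc, ← ih]
      conv_lhs => rw [← h3]
      exact h₂.inv.2 _ _
  set t : ℕ → Equiv.Perm Plane := fun m => (f₂⁻¹) ^ m * f₁ ^ m with ht_def
  have hc : c₂⁻¹ < 1 := inv_lt_one_of_one_lt₀ hc₂
  have hc0 : 0 < c₂⁻¹ := inv_pos.mpr (by linarith)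
  have hinj : ∀ m m' : ℕ, m < m' → t m ≠ t m' := by
    intro m m' hmm heq
    have h3 := hval m
    have h4 := hval m'
    have h5 : (c₂⁻¹) ^ m' < (c₂⁻¹) ^ m := pow_lt_pow_right_of_lt_one₀ hc0 hc hmm
    have h6 : dist (t m x₁) x₂ = dist (t m' x₁) x₂ := by rw [heq]
    have h7 : (c₂⁻¹) ^ m * dist x₁ x₂ = (c₂⁻¹) ^ m' * dist x₁ x₂ := by
      rw [← h3, ← h4]; exact h6
    have h8 := mul_right_cancel₀ hpos.ne' h7
    linarith
  -- placements
  have hpl : ∀ m, ∃ z : G, Iso z ∧ ∀ x, t m x = act z x := by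
    intro m
    exact exists_placement ⟨t m, Isometry.of_dist_eq fun x y => by
      show dist (t m x) (t m y) = dist x y
      rw [(ht m).1.2, one_mul]⟩
  choose z hz hzt using hpl
  let F : Ultrafilter ℕ := hyperfilter ℕ
  have hbd : ∀ m, ‖z m‖ ≤ ‖x₂‖ + dist x₁ x₂ + ‖x₁‖ + 1 := by
    intro m
    have h3 : ‖act (z m) x₁‖ ≤ ‖x₂‖ + dist x₁ x₂ := by
      rw [← hzt]
      have h4 := hval m
      have h5 : (c₂⁻¹) ^ m * dist x₁ x₂ ≤ dist x₁ x₂ :=
        mul_le_of_le_one_left hpos.le (pow_le_one₀ hc0.le hc.le)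
      have h6 : ‖t m x₁‖ ≤ ‖x₂‖ + dist (t m x₁) x₂ := by
        rw [dist_eq_norm]
        calc ‖t m x₁‖ = ‖x₂ + (t m x₁ - x₂)‖ := by congr 1; abel
          _ ≤ _ := norm_add_le _ _
      linarith
    have h7 := norm_le_of_mem (P := {x₁}) (D := ‖x₁‖) (by simp) (hz m)
      (x := act (z m) x₁) ⟨x₁, rfl, rfl⟩
    linarith
  obtain ⟨z₀, hz₀⟩ := exists_limit F z _ (Eventually.of_forall hbd)
  -- two close members
  have hr := hP.rpos
  obtain ⟨ε, hε, hεr⟩ : ∃ ε : ℝ, 0 < ε ∧ 2 * ε * (1 + |9 * D|) < r := by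
    refine ⟨r / (4 * (1 + |9 * D|)), by positivity, ?_⟩
    have : 2 * (r / (4 * (1 + |9 * D|))) * (1 + |9 * D|) = r / 2 := by
      field_simp
      norm_num
    rw [this]; linarith
  have hev : ∀ᶠ m in F, dist (z m) z₀ < ε := Metric.tendsto_nhds.mp hz₀ ε hε
  obtain ⟨m, hm⟩ := hev.exists
  have hgt : ∀ᶠ m' in F, m < m' := by
    have : ∀ᶠ m' in (atTop : Filter ℕ), m < m' := eventually_gt_atTop m
    rw [← Nat.cofinite_eq_atTop] at this
    exact hyperfilter_le_cofinite this
  obtain ⟨m', hm'1, hm'2⟩ := (hev.and hgt).exists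
  apply hinj m m' hm'2
  have hsmall : ∀ x : Plane, ‖x‖ ≤ 9 * D → dist (((t m)⁻¹ * t m' : Equiv.Perm Plane) x) x < r := by
    intro x hx
    have h3 : dist (((t m)⁻¹ * t m' : Equiv.Perm Plane) x) x = dist (t m' x) (t m x) := by
      rw [Equiv.Perm.mul_apply]
      have h4 := (ht m).1.2 ((t m)⁻¹ (t m' x)) x
      have h5 : t m ((t m)⁻¹ (t m' x)) = t m' x := (t m).apply_symm_apply _
      rw [one_mul] at h4
      rw [← h4]
      show dist (t m ((t m)⁻¹ (t m' x))) (t m x) = _
      rw [h5]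
    rw [h3, hzt, hzt]
    have h6 : dist (z m') (z m) ≤ 2 * ε := by
      have := dist_triangle_right (z m') (z m) z₀
      linarith
    have h7 : dist (act (z m') x) (act (z m) x) ≤ dist (z m') (z m) * (1 + ‖x‖) := by
      rw [dist_eq_norm, dist_eq_norm]
      have h8 : act (z m') x - act (z m) x = (z m' - z m).1 + (z m' - z m).2 x := by
        unfold act
        simp only [Prod.fst_sub, Prod.snd_sub, sub_apply]
        abel
      rw [h8]
      calc ‖(z m' - z m).1 + (z m' - z m).2 x‖ ≤ ‖(z m' - z m).1‖ + ‖(z m' - z m).2 x‖ :=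
            norm_add_le _ _
        _ ≤ ‖z m' - z m‖ + ‖z m' - z m‖ * ‖x‖ := by
            gcongr
            · exact norm_fst_le _
            · exact (ContinuousLinearMap.le_opNorm _ _).trans
                (mul_le_mul_of_nonneg_right (norm_snd_le _) (norm_nonneg _))
        _ = _ := by ring
    have h9 : ‖x‖ ≤ |9 * D| := hx.trans (le_abs_self _)
    calc dist (act (z m') x) (act (z m) x) ≤ dist (z m') (z m) * (1 + ‖x‖) := h7
      _ ≤ 2 * ε * (1 + |9 * D|) := by gcongr
      _ < r := hεr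
  have h10 := small_sym hP hT (Sym.mul (Sym.inv (ht m)) (ht m')) hsmall
  have h11 : t m * ((t m)⁻¹ * t m') = t m * 1 := by rw [h10]
  rw [mul_inv_cancel_left, mul_one] at h11
  exact h11.symm

/-! ### From tilings to placement sets and back -/

theorem isPl_of_admits {P : Set Plane} (hP : IsCompact P) (hne : (interior P).Nonempty)
    {T : Set (Set Plane)} (hT : Admits P T) : IsPl P {z | Iso z ∧ tile P z ∈ T} := by
  obtain ⟨p₀, hp₀⟩ := hne
  refine ⟨?_, fun z hz => hz.1, ?_, ?_⟩
  · rw [isClosed_iff_ultrafilter]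
    intro z F hF hmem
    have hev : ∀ᶠ w in F, Iso w ∧ tile P w ∈ T := hmem
    have hlim : Tendsto (fun w : G => w) F (𝓝 z) := hF
    have hz : Iso z := iso_closed.mem_of_tendsto hlim (hev.mono fun w h => h.1)
    refine ⟨hz, ?_⟩
    have hy : act z p₀ ∈ interior (tile P z) := by
      rw [interior_tile P hz]; exact ⟨p₀, hp₀, rfl⟩
    have h1 := eventually_mem_interior hlim (hev.mono fun w h => h.1) hz
      (tendsto_const_nhds (x := act z p₀)) hy
    obtain ⟨w₁, hw₁, hyw₁⟩ := (hev.and h1).exists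
    have h2 : ∀ᶠ w in F, tile P w = tile P w₁ := by
      filter_upwards [hev, h1] with w hw hyw
      by_contra hcon
      exact (Set.disjoint_left.mp (hT.1.disjoint _ hw.2 _ hw₁.2 hcon)) hyw hyw₁
    have h3 := tile_eq_of_tendsto (w := fun _ => w₁) hP hlim tendsto_const_nhds h2
    rw [h3]
    exact hw₁.2
  · intro x
    have hx : x ∈ ⋃₀ T := by rw [hT.1.cover]; trivial
    obtain ⟨A, hA, hxA⟩ := hx
    obtain ⟨g, hg⟩ := hT.2 A hA
    obtain ⟨z, hz, hgz⟩ := exists_placement g
    have h : A = tile P z := by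
      rw [hg]; unfold tile; exact image_congr fun x _ => hgz x
    exact ⟨z, ⟨hz, h ▸ hA⟩, h ▸ hxA⟩
  · intro z hz w hw hne
    exact hT.1.disjoint _ hz.2 _ hw.2 hne

/-- The tiling of a placement set. -/
def tiling (P : Set Plane) (C : Set G) : Set (Set Plane) := tile P '' C

theorem admits_tiling {P : Set Plane} (hdisk : IsDisk P) (hne : (interior P).Nonempty)
    {C : Set G} (hC : IsPl P C) : Admits P (tiling P C) := by
  have hcong : ∀ A ∈ tiling P C, ∃ g : Plane ≃ᵢ Plane, A = g '' P := by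
    rintro _ ⟨z, hz, rfl⟩
    obtain ⟨g, hg⟩ := exists_equiv (hC.iso z hz)
    exact ⟨g, by unfold tile; exact image_congr fun x _ => (hg x).symm⟩
  have hdisj : ∀ A ∈ tiling P C, ∀ B ∈ tiling P C, A ≠ B →
      Disjoint (interior A) (interior B) := by
    rintro _ ⟨z, hz, rfl⟩ _ ⟨w, hw, rfl⟩ hne
    exact hC.disj z hz w hw hne
  refine ⟨⟨?_, ?_, ?_, hdisj⟩, hcong⟩
  · have h1 : (tiling P C).PairwiseDisjoint interior := fun A hA B hB hAB => hdisj A hA B hB hAB
    apply h1.countable_of_isOpen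
    · exact fun _ _ => isOpen_interior
    · rintro _ ⟨z, hz, rfl⟩
      rw [interior_tile P (hC.iso z hz)]
      exact hne.image _
  · intro A hA
    obtain ⟨g, rfl⟩ := hcong A hA
    exact isDisk_image (exists_perm_isom g) hdisk
  · rw [eq_univ_iff_forall]
    intro x
    obtain ⟨z, hz, hx⟩ := hC.cover x
    exact ⟨_, ⟨z, hz, rfl⟩, hx⟩

/-- `Comp` gives a composition of the tiling. -/
theorem isComposition_of_comp {P : Set Plane} {C : Set G} (hT : Admits P (tiling P C)) {k : ℕ}
    {c : ℝ} {f : Equiv.Perm Plane} (hf : Sim c f) (h : Comp P k f C) :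
    IsComposition k (img f (tiling P C)) (tiling P C) := by
  classical
  refine ⟨isTiling_img hf hT.1, ?_⟩
  rintro _ ⟨_, ⟨z, hz, rfl⟩, rfl⟩
  obtain ⟨g, h1, h2, h3⟩ := h z hz
  refine ⟨Finset.univ.image fun i => tile P (g i), ?_, ?_, ?_⟩
  · intro A hA
    simp only [Finset.coe_image, Finset.coe_univ, image_univ, mem_range] at hA
    obtain ⟨i, rfl⟩ := hA
    exact ⟨g i, h1 i, rfl⟩
  · rw [Finset.card_image_of_injective, Finset.card_univ, Fintype.card_fin]
    intro i j hij
    by_contra hne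
    exact h2 i j hne hij
  · show f '' tile P z = _
    rw [h3]
    simp

theorem comp_of_isComposition {P : Set Plane} {C : Set G} {k : ℕ} {f : Plane → Plane}
    (h : IsComposition k (img f (tiling P C)) (tiling P C)) : Comp P k f C := by
  intro z hz
  obtain ⟨S, h1, h2, h3⟩ := h.2 (f '' tile P z) ⟨tile P z, ⟨z, hz, rfl⟩, rfl⟩
  let e := S.equivFinOfCardEq h2
  have h4 : ∀ i : Fin k, ∃ w ∈ C, tile P w = (e.symm i : Set Plane) := fun i => h1 (e.symm i).2
  choose g hg1 hg2 using h4
  refine ⟨g, hg1, ?_, ?_⟩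
  · intro i j hij heq
    rw [hg2, hg2] at heq
    exact hij (e.symm.injective (Subtype.ext heq))
  · rw [h3]
    ext x
    simp only [mem_sUnion, mem_iUnion, hg2]
    constructor
    · rintro ⟨A, hA, hx⟩
      exact ⟨e ⟨A, hA⟩, by simpa using hx⟩
    · rintro ⟨i, hx⟩
      exact ⟨_, (e.symm i).2, hx⟩

open MeasureTheory in
theorem volume_image_isom (g : Plane ≃ᵢ Plane) (A : Set Plane) : volume (g '' A) = volume A := by
  obtain ⟨z, hz, hg⟩ := exists_placement g
  let L : Plane →ₗᵢ[ℝ] Plane := ⟨z.2.toLinearMap, hz⟩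
  let L' : Plane ≃ₗᵢ[ℝ] Plane := L.toLinearIsometryEquiv rfl
  have h1 : g '' A = (fun x => z.1 + x) '' (L' '' A) := by
    rw [image_image]
    exact image_congr fun x _ => hg x
  rw [h1, image_add_left, measure_preimage_add]
  have h2 := L'.symm.measurePreserving
  have h3 : L' '' A = L'.symm ⁻¹' A := by
    ext x
    constructor
    · rintro ⟨y, hy, rfl⟩
      simpa using hy
    · intro hx
      exact ⟨L'.symm x, hx, by simp⟩
  rw [h3]
  exact h2.measure_preimage_emb L'.symm.toHomeomorph.measurableEmbedding A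

open MeasureTheory Pointwise in
/-- The ratio of a `k`-composition map is at least `7/5`. -/
theorem ratio_ge {P : Set Plane} (hP : IsCompact P) (hne : (interior P).Nonempty)
    {T : Set (Set Plane)} (hT : Admits P T) {k : ℕ} (hk : 2 ≤ k) {c : ℝ} {f : Equiv.Perm Plane}
    (hf : Sim c f) (h : IsComposition k (img f T) T) : 7 / 5 ≤ c := by
  have hx : (0 : Plane) ∈ ⋃₀ T := by rw [hT.1.cover]; trivial
  obtain ⟨A, hA, _⟩ := hx
  obtain ⟨S, h1, h2, h3⟩ := h.2 (f '' A) ⟨A, hA, rfl⟩
  obtain ⟨A₁, hA₁, A₂, hA₂, hne12⟩ := Finset.one_lt_card.mp (by omega : 1 < S.card)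
  have hvol : ∀ B ∈ T, volume (interior B) = volume (interior P) := by
    intro B hB
    obtain ⟨g, rfl⟩ := hT.2 B hB
    have : interior (g '' P) = g '' interior P := (g.toHomeomorph.image_interior P).symm
    rw [this, volume_image_isom]
  have hvpos : 0 < volume (interior P) := isOpen_interior.measure_pos volume hne
  have hvfin : volume (interior P) ≠ ⊤ :=
    ((measure_mono interior_subset).trans_lt hP.measure_lt_top).ne
  -- scaling
  have hscale : volume (interior (f '' A)) = ENNReal.ofReal (c ^ 2) * volume (interior P) := by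
    rw [← image_interior_sim hf]
    have hsim := hf.isSimilarity
    let e : Plane ≃ Plane := f.trans (Equiv.mk (fun x => c⁻¹ • x) (fun x => c • x)
      (fun x => by simp [smul_smul, hf.1.ne']) (fun x => by simp [smul_smul, hf.1.ne']))
    have he : ∀ x, e x = c⁻¹ • f x := fun x => rfl
    have hiso : Isometry e := by
      refine Isometry.of_dist_eq fun x y => ?_
      rw [he, he, dist_smul₀, hf.2, Real.norm_eq_abs, abs_of_pos (inv_pos.mpr hf.1), ← mul_assoc,
        inv_mul_cancel₀ hf.1.ne', one_mul]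
    let g : Plane ≃ᵢ Plane := ⟨e, hiso⟩
    have hfg : ∀ x, f x = c • g x := fun x => by
      show f x = c • e x
      rw [he, smul_smul, mul_inv_cancel₀ hf.1.ne', one_smul]
    have h4 : f '' interior A = c • (g '' interior A) := by
      rw [← image_smul, image_image]
      exact image_congr fun x _ => hfg x
    rw [h4, Measure.addHaar_smul, volume_image_isom, hvol A hA]
    congr 2
    simp
  have hsub : interior A₁ ∪ interior A₂ ⊆ interior (f '' A) := by
    apply union_subset
    · apply interior_mono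
      rw [h3]; exact subset_sUnion_of_mem hA₁
    · apply interior_mono
      rw [h3]; exact subset_sUnion_of_mem hA₂
  have hdisj := hT.1.disjoint A₁ (h1 hA₁) A₂ (h1 hA₂) hne12
  have hle : volume (interior P) + volume (interior P) ≤
      ENNReal.ofReal (c ^ 2) * volume (interior P) := by
    rw [← hscale]
    refine le_trans ?_ (measure_mono hsub)
    rw [measure_union hdisj isOpen_interior.measurableSet, hvol _ (h1 hA₁), hvol _ (h1 hA₂)]
  have hle2 : 2 ≤ c ^ 2 := by
    have h5 : (2 : ENNReal) * volume (interior P) ≤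
        ENNReal.ofReal (c ^ 2) * volume (interior P) := by rwa [two_mul]
    have h6 := (ENNReal.mul_le_mul_iff_left hvpos.ne' hvfin).mp h5
    have h7 : ENNReal.ofReal 2 ≤ ENNReal.ofReal (c ^ 2) := by simpa using h6
    exact (ENNReal.ofReal_le_ofReal_iff (by positivity)).mp h7
  by_contra hcon
  push Not at hcon
  have := hf.1
  nlinarith

theorem comp_shift {P : Set Plane} {C : Set G} {k : ℕ} {f : Plane → Plane} {a : Plane}
    (h : Comp P k f (shift a C)) : Comp P k (fun x => f (x + a) - a) C := by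
  intro z hz
  obtain ⟨g, h1, h2, h3⟩ := h (z + (a, 0)) ⟨z, hz, rfl⟩
  choose w hw hwg using h1
  have hwg' : ∀ i, g i = w i + (a, 0) := fun i => (hwg i).symm
  refine ⟨w, hw, ?_, ?_⟩
  · intro i j hij heq
    apply h2 i j hij
    rw [hwg', hwg', tile_add, tile_add, heq]
  · have e1 : (fun x => f (x + a) - a) '' tile P z =
        (fun x => x - a) '' (f '' tile P (z + (a, 0))) := by
      rw [tile_add, image_image, image_image]
    rw [e1, h3, image_iUnion]
    congr 1
    ext1 i
    rw [hwg', tile_add, image_image]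
    simp

/-- For every prototile `P` that admits a tiling, some tiling admitted by `P` either is not a
`k`-similarity tiling for any `k ≥ 2`, or is a `k`-similarity tiling having at least two distinct
`k`-compositions equal to it. -/
theorem result (P : Set Plane) (hex : ∃ T, Admits P T) :
    ∃ T, Admits P T ∧ ((∀ k : ℕ, 2 ≤ k → ¬ IsKSimilarity k T) ∨
      ∃ k : ℕ, IsKSimilarity k T ∧ ∃ T₁ T₂, T₁ ≠ T₂ ∧
        (IsComposition k T₁ T ∧ Equal T T₁) ∧ (IsComposition k T₂ T ∧ Equal T T₂)) := by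
  by_contra hcon
  push Not at hcon
  -- facts on `P`
  obtain ⟨T₀, hT₀⟩ := hex
  have hdisk : IsDisk P := by
    have hx : (0 : Plane) ∈ ⋃₀ T₀ := by rw [hT₀.1.cover]; trivial
    obtain ⟨A, hA, _⟩ := hx
    obtain ⟨g, hg⟩ := hT₀.2 A hA
    have h1 : g.symm '' A = P := by
      rw [hg, image_image]; simp
    have h2 := isDisk_image (exists_perm_isom g.symm) (hT₀.1.disk A hA)
    have h3 : (g.symm.toEquiv : Plane → Plane) = g.symm := rfl
    rwa [h3, h1] at h2
  have hP : IsCompact P := by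
    obtain ⟨e⟩ := hdisk
    have h1 : CompactSpace (closedBall (0 : Plane) 1) :=
      isCompact_iff_compactSpace.mp (isCompact_closedBall 0 1)
    have h2 : CompactSpace P := e.symm.compactSpace
    exact isCompact_iff_compactSpace.mpr h2
  have hne : (interior P).Nonempty := by
    have hcount : Countable T₀ := hT₀.1.countable.to_subtype
    have hcl : ∀ A : T₀, IsClosed (A : Set Plane) := by
      intro A
      obtain ⟨g, hg⟩ := hT₀.2 A A.2
      rw [hg]
      exact (hP.image g.continuous).isClosed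
    have h1 := nonempty_interior_of_iUnion_of_closed (f := fun A : T₀ => (A : Set Plane)) hcl (by
      rw [← sUnion_eq_iUnion, hT₀.1.cover])
    obtain ⟨A, hA⟩ := h1
    obtain ⟨g, hg⟩ := hT₀.2 A A.2
    rw [hg] at hA
    have h2 : interior (g '' P) = g '' interior P := (g.toHomeomorph.image_interior P).symm
    rw [h2] at hA
    exact hA.of_image
  obtain ⟨p₀, r, D, hproto⟩ := exists_proto hP hne
  have : CompactSpace (X P) := compactSpace_X hP
  have : Nonempty (X P) := ⟨⟨_, isPl_of_admits hP hne hT₀⟩⟩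
  -- coverage
  have hcov : ∀ (C : X P) (k : ℕ), 2 ≤ k →
      (∃ T₁, IsComposition k T₁ (tiling P C.1) ∧ Equal (tiling P C.1) T₁) →
      ∃ n, C ∈ Yset P k n := by
    rintro C k hk ⟨T₁, hT₁, f, hf, hfT⟩
    obtain ⟨d, hd1, hd2, rfl⟩ := exists_data hf
    obtain ⟨e, he, hs⟩ := exists_perm hd1 hd2
    have hfe : expand d = e := by ext1 x; exact (he x).symm
    have hadm := admits_tiling hdisk hne C.2
    have hcomp : IsComposition k (img (expand d) (tiling P C.1)) (tiling P C.1) := by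
      unfold img; rw [hfT]; exact hT₁
    have hge : 7 / 5 ≤ d.2 := by
      rw [hfe] at hcomp
      exact ratio_ge hP hne hadm hk hs hcomp
    obtain ⟨n₁, hn₁⟩ := exists_nat_ge d.2
    obtain ⟨n₂, hn₂⟩ := exists_nat_ge ‖d.1‖
    refine ⟨max n₁ n₂, d, hd1, hge, ?_, ?_, comp_of_isComposition hcomp⟩
    · exact hn₁.trans (by exact_mod_cast le_max_left _ _)
    · exact hn₂.trans (by exact_mod_cast le_max_right _ _)
  have hsim : ∀ C : X P, ∃ k, 2 ≤ k ∧ IsKSimilarity k (tiling P C.1) := by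
    intro C
    have hadm := admits_tiling hdisk hne C.2
    obtain ⟨k, hk, hk'⟩ := (hcon _ hadm).1
    exact ⟨k, hk, hk'⟩
  obtain ⟨k, n, C, hmin, hrec⟩ := recurrence (X := X P) trans trans_zero trans_add
    continuous_trans (fun k n => Yset P (k + 2) n) (fun k n => isClosed_Yset hP hne (k + 2) n)
    (by
      intro C
      obtain ⟨k, hk, hk'⟩ := hsim C
      obtain ⟨n, hn⟩ := hcov C k hk hk'.2.1
      refine ⟨k - 2, n, ?_⟩
      have : k - 2 + 2 = k := by omega
      simpa only [this] using hn)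
  have hadm := admits_tiling hdisk hne C.2
  -- expansions of `C` from recurrence
  have hexp : ∀ R : ℝ, ∃ (c : ℝ) (f : Equiv.Perm Plane) (x : Plane), Sim c f ∧ 1 < c ∧
      IsComposition (k + 2) (img f (tiling P C.1)) (tiling P C.1) ∧ f x = x ∧
      R - 5 / 2 * n < ‖x‖ := by
    intro R
    obtain ⟨a, ha, d, hd1, hd2, hd3, hd4, hd5⟩ := hrec R
    have hc0 : 0 < d.2 := by linarith
    obtain ⟨e, he, hs⟩ := exists_perm hd1 hc0
    let τ : Equiv.Perm Plane := Equiv.addRight a
    have hτ : Sim 1 τ := ⟨one_pos, fun x y => by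
      show dist (x + a) (y + a) = 1 * dist x y
      rw [dist_add_right, one_mul]⟩
    let f : Equiv.Perm Plane := τ⁻¹ * e * τ
    have hf : Sim d.2 f := by
      have := (hτ.inv.mul hs).mul hτ
      simpa using this
    have hfx : ∀ x, f x = expand d (x + a) - a := by
      intro x
      show (τ.symm) (e (x + a)) = _
      rw [he]
      show expand d (x + a) + -a = _
      rw [sub_eq_add_neg]
    -- fixed point of `e`
    have hfix : ∃ y, e y = y := by
      have hK : d.2⁻¹ < 1 := inv_lt_one_of_one_lt₀ (by linarith)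
      have hcontr : ContractingWith ⟨d.2⁻¹, (inv_pos.mpr hc0).le⟩ (e⁻¹ : Equiv.Perm Plane) := by
        refine ⟨?_, LipschitzWith.of_dist_le_mul fun x y => (hs.inv.2 x y).le⟩
        rw [← NNReal.coe_lt_coe]
        exact hK
      obtain ⟨y, hy, _⟩ := hcontr.exists_fixedPoint 0 (edist_ne_top _ _)
      refine ⟨y, ?_⟩
      have h1 : (e⁻¹ : Equiv.Perm Plane) y = y := hy
      conv_lhs => rw [← h1]
      exact e.apply_symm_apply y
    obtain ⟨y, hy⟩ := hfix
    have hyn : ‖y‖ ≤ 5 / 2 * n := by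
      rw [he] at hy
      have h1 : d.2 • d.1.2 y = y - d.1.1 := by
        rw [eq_sub_iff_add_eq, add_comm]
        exact hy
      have h2 : d.2 * ‖y‖ ≤ ‖y‖ + ‖d.1.1‖ := by
        calc d.2 * ‖y‖ = ‖d.2 • d.1.2 y‖ := by
              rw [norm_smul, hd1, Real.norm_eq_abs, abs_of_pos hc0]
          _ ≤ _ := by rw [h1]; exact norm_sub_le _ _
      have h3 : ‖d.1.1‖ ≤ n := (norm_fst_le _).trans hd4
      have h4 := norm_nonneg y
      nlinarith
    refine ⟨d.2, f, y - a, hf, by linarith, ?_, ?_, ?_⟩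
    · apply isComposition_of_comp hadm hf
      have h1 := comp_shift hd5
      have h2 : (fun x => expand d (x + a) - a) = f := by
        ext1 x; exact (hfx x).symm
      rwa [h2] at h1
    · rw [hfx, sub_add_cancel, ← he, hy]
    · have h5 : ‖a‖ ≤ ‖y - a‖ + ‖y‖ := by
        calc ‖a‖ = ‖y - (y - a)‖ := by congr 1; abel
          _ ≤ ‖y‖ + ‖y - a‖ := norm_sub_le _ _
          _ = _ := add_comm _ _
      linarith
  -- the minimal `k`
  obtain ⟨k₀, hk₀2, hk₀⟩ := hsim C
  have hkeq : k₀ = k + 2 := by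
    rcases lt_trichotomy k₀ (k + 2) with h | h | h
    · exfalso
      obtain ⟨m, hm⟩ := hcov C k₀ hk₀2 hk₀.2.1
      apply hmin (k₀ - 2) (by omega) m
      have : k₀ - 2 + 2 = k₀ := by omega
      simpa only [this] using hm
    · exact h
    · exfalso
      obtain ⟨c, f, x, hf, _, hcomp, _, _⟩ := hexp 0
      exact hk₀.2.2 (k + 2) (by omega) h ⟨_, hcomp, equal_img hf _⟩
  subst hkeq
  obtain ⟨T₁, hT₁⟩ := hk₀.2.1
  have huniq : ∀ T', IsComposition (k + 2) T' (tiling P C.1) → Equal (tiling P C.1) T' →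
      T' = T₁ := by
    intro T' h1 h2
    by_contra hne'
    exact (hcon _ hadm).2 (k + 2) hk₀ T' T₁ hne' ⟨h1, h2⟩ hT₁.1 hT₁.2
  obtain ⟨c₁, f₁, x₁, hf₁, hc₁, hcomp₁, hx₁, _⟩ := hexp 0
  obtain ⟨c₂, f₂, x₂, hf₂, hc₂, hcomp₂, hx₂, hfar⟩ := hexp (‖x₁‖ + 5 / 2 * n)
  have heq := fixed_eq hproto hadm huniq hf₁ hf₂ hc₂ hcomp₁ hcomp₂ hx₁ hx₂
  rw [heq] at hfar
  linarith

end Pool.Agent.Results.MP_2cc943_co.NoForcingPrototile
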